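import Pool.Agent.Helper97.Nag.Defs
import Pool.Agent.Helper97.Tate.Goals

/-!
PROJECT NAG (MP_d3128a_ag and related), captain helper97: NAGATA'S CONJECTURE for `k ^ 2 + r` general
points, `r ∣ k ^ 2`, `k ≥ 3`, and the uniform Harbourne-Hirschowitz conjecture for 10 and 12 points
outside a window of one or two degrees. Notation and theta functions as in
`Pool/Agent/Helper97/Tate/Goals.lean` (all the goals `Tate.S_XXX` of that file are PROVED; use them as
hypotheses `(h : Tate.S_XXX)` or import the file of the prover, see `Helper97/Tate/All.lean`).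
Most packets of parts A and B are adaptations of landed files of project TATE (the docstring names
them). Deliver `Pool/Agent/<Seat>/Nag/XXX.lean`, namespace `Pool.Agent.<Seat>.Nag.XXX`,
`theorem t (h1 : S_AAA) ... : S_XXX`; the hypotheses allowed are the goals named in the docstring and all
`Tate.S_XXX` (other goals may be used too if you need them, tell me).
-/

set_option autoImplicit false

noncomputable section

namespace Pool.Agent.Helper97.Nag

open Module Pool.Agent.Helper97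

open Pool.Agent.Helper97.Tate (OO KK SS cf IsTh qe Th iO ser evx evK th Van Fm tst nP Idx Indep IsCub)

/-! ### Part A: the plane curve of degree `k` parametrised by three theta functions of degree `k` -/

/-- CRV3 (0.7 h, hypothesis Tate.S_CUB). The case `k = 3`.
PROOF. Tate.S_CUB gives `α β γ` with `IsCub α β γ`; take `g = cub α β γ` (definition Tate.cub). It is
homogeneous of degree 3, its reduction modulo `q` is `X_0 X_1 X_2 - X_1^3 - X_2^3 = g0 F 3` because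
`q ∣ α, β - 1, γ - 1`, and `eval₂ iO (Th 3 · 1) g` is
`Th 3 0 1 * Th 3 1 1 * Th 3 2 1 - iO α (Th 3 0 1)^3 - ... = 0`. -/
def S_CRV3 : Prop := ∀ (F : Type) [Field F] [CharZero F],
  ∃ g : MvPolynomial (Fin 3) (OO F), IsCrv 3 g

/-- GTW (2 h, hypotheses Tate.S_MUL, S_LIN, S_THC, S_BAS). Generation in degree two.
PROOF. Put `M_1` = the theta functions of degree `k` and multiplier `c`, with `OO`-basis
`Θ_ρ = Th k ρ c`, `0 ≤ ρ < k`; `M_2` = those of degree `2k` and multiplier `c`, with `OO`-basis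
`Th (2k) ρ' c`, `0 ≤ ρ' < 2k` (S_BAS). The `2k` elements `Th k 0 1 * Θ_ρ`, `Th k 2 1 * Θ_ρ` lie in `M_2`
(S_MUL); their matrix in the basis of `M_2` is a `2k × 2k` matrix over the local ring `OO F = F⟦q⟧`; it is
invertible iff it is invertible modulo `q`, iff (surjectivity) the constant coefficients (`q = 0`)
of the `2k` elements span the constant coefficients of the basis of `M_2`, which are (S_THC)
`1 + c T^{2k}, T, T^2, ..., T^{2k-1}`. At `q = 0` the elements are (S_THC):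
(a) `(1 + T^k)(1 + c T^k) = 1 + (1+c) T^k + c T^{2k}`; (b) `(1 + T^k) T^i = T^i + T^{k+i}`, `1 ≤ i < k`;
(c) `T^2 (1 + c T^k) = T^2 + c T^{k+2}`; (d) `T^2 T^i = T^{i+2}`, `1 ≤ i < k`. From (d): `T^3, ..., T^{k+1}`.
From (b), `i = 1`: `T` (as `T^{k+1}` is there). From (b), `i = 2`, and (c), as `c ≠ 1`: `T^2` and `T^{k+2}`.
From (b), `3 ≤ i < k`: `T^{k+i}` (`T^i` is there because `3 ≤ i ≤ k+1`). From (a): `1 + c T^{2k}`
(`T^k` is there, `3 ≤ k ≤ k + 1`). So all the `2k` basis elements are in the span. Hence the elements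
form an `OO`-basis of `M_2`, and `Th k 1 1 * Θ_ρ ∈ M_2` is a combination of them. -/
def S_GTW : Prop := ∀ (F : Type) [Field F] (k : ℕ) (c : F), 3 ≤ k → c ≠ 0 → c ≠ 1 →
  ∀ ρ : Fin k, ∃ a b : Fin k → OO F, Th k 1 1 * Th k ((ρ : ℕ) : ℤ) c =
    ∑ ρ' : Fin k, (iO (a ρ') * Th k 0 1 + iO (b ρ') * Th k 2 1) * Th k ((ρ' : ℕ) : ℤ) c

/-- CRV (2 h, hypotheses S_GTW, S_INDK, Tate.S_THC). The curve of degree `k`.
PROOF. Take `c = 2` (characteristic zero). GTW gives a `k × k` matrix `A = a X_0 + b X_2` over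
`OO F [X_0, X_2]` with `(X_1 - A)` evaluated at `X_r = Th k r 1` killing the vector `(Θ_ρ)`. Let
`g = - det (X_1 * 1 - A) ∈ MvPolynomial (Fin 3) (OO F)` (determinant of a matrix over
`MvPolynomial (Fin 3) (OO F)`). (i) `g` is homogeneous of degree `k`: all the entries are homogeneous of
degree one (Leibniz formula). (ii) `eval₂ iO (Th k · 1)` is a ring homomorphism to the domain `SS F`; the image
of the matrix kills the vector `(Θ_ρ)`, which is not zero (`Θ_1` has constant coefficient `T`), so its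
determinant is zero (multiply by the adjugate, `Matrix.adjugate_mul`; or
`Matrix.exists_mulVec_eq_zero_iff`). (iii) Let `gb` be the reduction of `g` modulo `q`. It is
homogeneous of degree `k`; the coefficient of `X_1^k` in `det (X_1 - A)` is `1` (in
`det (X_1 - A)` put `X_0 = X_2 = 0`: `X_1^k`). By (ii) modulo `q` (S_THC)
`aeval ![1 + T^k, T, T^2] gb = 0`, and `g0` satisfies the same equation:
`(1 + T^k) T^{k-2} T^2 - T^k - T^{2k} = 0`. Both `gb` and `g0` have coefficient `-1` at `X_1^k`, so in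
`gb - g0`, homogeneous of degree `k`, all monomials have exponent of `X_1` at most `k - 1`; by INDK
`gb - g0 = 0`. -/
def S_CRV : Prop := ∀ (F : Type) [Field F] [CharZero F] (k : ℕ), 3 ≤ k →
  ∃ g : MvPolynomial (Fin 3) (OO F), IsCrv k g

/-- INDK (1.2 h). Linear independence at `q = 0`. (Adapt Helper78/Tate/IND.lean, the case `k = 3`.)
PROOF. The monomial `X_0^a X_1^b X_2^c` (`b < k`, `a + b + c = d`) goes to `(1 + T^k)^a T^(b + 2 c)`. The
exponents of `T` in it are `≡ b + 2 c mod k`; so the sum of the terms of `f` with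
`b + 2 c ≡ ρ mod k` has image `0` for each `ρ`. Two different monomials of the same class `ρ` have
different `a`: if `a = a'` then `b + c = b' + c'`, `b + 2 c = 2 (d - a) - b`, so `b ≡ b' mod k`, and
`b, b' < k` gives `b = b'`. Suppose some coefficient of the class is nonzero and let `a_0` be the smallest
`a` of such a monomial; divide the relation by `(1 + T^k)^{a_0}`: `(nonzero constant) * T^n +
(1 + T^k) * u = 0`, so `1 + T^k` divides a unit of `F[T, 1/T]`; but it is not a unit. -/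
def S_INDK : Prop := ∀ (F : Type) [Field F] (k d : ℕ) (f : MvPolynomial (Fin 3) F), 3 ≤ k →
  f.IsHomogeneous d → (∀ e ∈ f.support, e 1 < k) →
  MvPolynomial.aeval ![(1 + LaurentPolynomial.T (k : ℤ) : LaurentPolynomial F),
    LaurentPolynomial.T 1, LaurentPolynomial.T 2] f = 0 → f = 0

/-- REDK (1.2 h). Reduction modulo the curve. (Adapt Helper78/Tate/RED.lean.)
PROOF. `crvK g` is homogeneous of degree `k` and its coefficient at `X_1^k` is the image of a series with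
constant coefficient `-1`, so it is a nonzero `u`; every other monomial of degree `k` has exponent of
`X_1` less than `k`. By linearity let `z` be a monomial `X_0^a X_1^b X_2^c`; strong induction on `b`. If
`b < k` take `y = 0`, `r = z`. If `b ≥ k` write `z = X_1^k z'`; `X_1^k = u⁻¹ (crvK g - rest)`, so
`z = crvK g * (u⁻¹ z') - u⁻¹ rest * z'`, and `rest * z'` is homogeneous with exponents of `X_1` at most
`b - 1`. -/
def S_REDK : Prop := ∀ (F : Type) [Field F] (k : ℕ) (g : MvPolynomial (Fin 3) (OO F)), 3 ≤ k →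
  IsCrv k g → ∀ (d : ℕ) (z : MvPolynomial (Fin 3) (KK F)), z.IsHomogeneous d →
    ∃ y r : MvPolynomial (Fin 3) (KK F), z = crvK g * y + r ∧ r.IsHomogeneous d ∧
      ∀ e ∈ r.support, e 1 < k

/-- KRNK (1.5 h, hypotheses S_INDK, S_REDK, S_CUVK, Tate.S_EVC, S_EVI, S_THC). The kernel of the restriction
to the curve. (Adapt Helper76/Tate/KRN.lean.)
PROOF. By REDK write `z = crvK g * y + r`; `aeval (phk k x) r = 0` by CUVK. We show `r = 0`. Otherwise,
multiplying by a suitable element of `KK F` (the coefficient of least `q`-order) we may assume that `r` is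
the image of `r' ∈ MvPolynomial (Fin 3) (OO F)` with not all coefficients divisible by `q`. Then
`evK x (eval₂ iO (fun r => Th k r 1) r') = aeval (phk k x) r = 0`, so `eval₂ iO (Th k · 1) r' = 0` by
Tate.S_EVI. Take constant coefficients (`q = 0`): by Tate.S_THC this is
`aeval ![1 + T^k, T, T^2] r'' = 0`, `r''` = `r'` modulo `q`, so `r'' = 0` by INDK, contradiction. -/
def S_KRNK : Prop := ∀ (F : Type) [Field F] (k : ℕ) (g : MvPolynomial (Fin 3) (OO F)), 3 ≤ k →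
  IsCrv k g → ∀ (x : Fˣ) (d : ℕ) (z : MvPolynomial (Fin 3) (KK F)), z.IsHomogeneous d →
    MvPolynomial.aeval (phk k x) z = 0 → crvK g ∣ z

/-- CUVK (1.2 h, hypotheses Tate.S_THC, S_EVC). The germs lie on the curve, the derivative is a unit.
(Adapt Helper78/Tate/CUV.lean.)
PROOF. `aeval (phk k x) (crvK g) = evK x (eval₂ iO (Th k · 1) g) = 0` (ring homomorphisms, compare on
constants by S_EVC and on variables). For the derivative: `pderiv 0 (crvK g) = crvK (pderiv 0 g)`, the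
constant coefficient (in `s`) of its value is the image of an element of `OO F`, whose value at
`q = 0` is the value of `pderiv 0 (g0 F k) = X_1^(k-2) X_2` at `(1 + x^k, x, x^2)`, i.e. `x^k ≠ 0`
(`k ≥ 3`; the constant coefficients at `q = 0` of `Th k 0 1, Th k 1 1, Th k 2 1` are `1 + T^k, T, T^2`). -/
def S_CUVK : Prop := ∀ (F : Type) [Field F] (k : ℕ) (g : MvPolynomial (Fin 3) (OO F)), 3 ≤ k →
  IsCrv k g → ∀ x : Fˣ, MvPolynomial.aeval (phk k x) (crvK g) = 0 ∧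
    PowerSeries.constantCoeff
      (MvPolynomial.aeval (phk k x) (MvPolynomial.pderiv 0 (crvK g))) ≠ 0

/-- DVK (1 h, hypotheses Tate.S_DIV, S_THZ). Several zeros, any finite index set. (Adapt
Helper79/Tate/DVM.lean, the case `Fin 9`.) -/
def S_DVK : Prop := ∀ (F : Type) [Field F] (ι : Type) [Fintype ι] (w : ι → Fˣ),
  Function.Injective w → ∀ (e : ι → ℕ) (κ : ℕ) (c : F) (f : SS F), 1 ≤ κ → c ≠ 0 →
  IsTh (κ + ∑ i, e i) c f → (∀ i, PowerSeries.X ^ e i ∣ evK (w i) f) →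
  ∃ (N : ℕ) (h : SS F), IsTh κ (c * ∏ i, (-((w i : Fˣ) : F)) ^ e i) h ∧
    PowerSeries.X ^ N * f = (∏ i, th (w i) ^ e i) * h

/-- LEVK (2 h, hypotheses S_DVK, S_KRNK, Tate.S_MUL, S_LIN, S_THC, S_BAS, S_EVC, S_EVU, S_THZ, S_VAB). The
sections of the restriction of a system to the curve. (Adapt Helper94/Tate/LEV.lean, where `k = 3`, nine
points, `n` may be negative.)
PROOF. Let `c = ∏ (-w_i)^n`, `z ∈ SysK k w e n`. CLAIM: there is `v : Fin κ → KK F` with
(*) `φ_x(z) = (∏ θ_i(x))^n ∑_r v_r Θ_r(x)` for ALL units `x` (`φ_x = aeval (phk k x)`,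
`θ_i(x) = evK x (th (w i))`, `Θ_r(x) = evK x (Th κ r c)`). Choose `N` with `q^N z` the image of
`z' ∈ MvPolynomial (Fin 3) (OO F)` (homogeneous of degree `e`). Let `f = eval₂ iO (Th k · 1) z' ∈ SS F`, a theta
function of degree `k e = κ + (card ι) n` and multiplier `1`, with `evK x f = q^N φ_x(z)` for all `x`. A form of
multiplicity `≥ n` at `ptk k (w i)` restricts to a series divisible by `s^n` (Tate.S_VAB clause (4) with
`χ = aeval (phk k (w i))` and the ideal `(s)`, as in Helper35/Tate/VSR.lean), so `s^n ∣ evK (w i) f`. By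
DVK (constant `e i = n`) `q^{N'} f = (∏ th(w_i)^n) * h` with `h` of degree `κ` and multiplier `c`, so
`h = ∑ iO (b_r) Th κ r c` by S_BAS. Apply `evK x` and divide by `q^{N + N'}`: (*) with
`v_r = b_r / q^{N+N'}`. The `v` is unique: for a fixed `x_0 ∉ {w_i}` (`F` is infinite) the `θ_i(x_0)` are units
of `KK F ⟦s⟧` (S_THZ), so S_EVU applies. Hence `z ↦ v` is linear; this is `a`. If `a z = 0` then
`φ_{x_0}(z) = 0` and KRNK gives `crvK g ∣ z`. -/
def S_LEVK : Prop := ∀ (F : Type) [Field F] [CharZero F] (k : ℕ) (g : MvPolynomial (Fin 3) (OO F)),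
  3 ≤ k → IsCrv k g → ∀ (ι : Type) [Fintype ι] (w : ι → Fˣ), Function.Injective w →
  ∀ e n κ : ℕ, 1 ≤ κ → κ + Fintype.card ι * n = k * e →
  ∃ a : SysK k w e n →ₗ[KK F] (Fin κ → KK F),
    (∀ z : SysK k w e n, a z = 0 → crvK g ∣ (z : MvPolynomial (Fin 3) (KK F))) ∧
    ∀ (x : Fˣ) (z : SysK k w e n),
      MvPolynomial.aeval (phk k x) (z : MvPolynomial (Fin 3) (KK F)) =
      (∏ i, evK x (th (w i))) ^ n *
        ∑ r : Fin κ, PowerSeries.C (a z r) *
          evK x (Th κ ((r : ℕ) : ℤ) (∏ i, (-((w i : Fˣ) : F)) ^ n))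

/-- LHYK (1.2 h, hypothesis S_LEVK). The structure of all the levels.
PROOF. Level `j`, `k j ≤ d`; `card ι = k^2`, `k m < d`. The submodule `WK (ptk ∘ w) m d k j` is
`SysK k w (d - k j) (m - j)` (`Fm` of a nonnegative integer). Case `k j < d`: LEVK with `e = d - k j`,
`n = m - j` (natural subtraction) and `κ = kap k d m j = k (d - k max(j,m)) ≥ 1`; indeed
`κ + k² (m - j) = k (d - k j)` in both cases `j ≤ m`, `j ≥ m`; `nu k d m j = κ`. Multiply (*) by
`Θ^j`, `Θ = ∏ θ_i(x)`: `j + (m - j) = m + (j - m)` (natural subtraction), so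
`Θ^j φ_x(z) = Θ^m * (Θ^(j - m) ∑_r a_r Th κ r c)`, `B = Θ^m`. Case `k j = d`: then `j > m`, `nu = 1`, `z` is a
constant polynomial `C z_0`, `a z = fun _ => z_0` (coefficient of the zero exponent), `a z = 0` gives `z = 0`, and
`Θ^j z_0 = Θ^m * (z_0 Θ^(j-m))`. -/
def S_LHYK : Prop := ∀ (F : Type) [Field F] [CharZero F] (k : ℕ) (g : MvPolynomial (Fin 3) (OO F)),
  3 ≤ k → IsCrv k g → ∀ (ι : Type) [Fintype ι] (w : ι → Fˣ), Function.Injective w →
  Fintype.card ι = k ^ 2 → ∀ (d m : ℕ), k * m < d → ∀ (b : ℕ) (x : Fin b → Fˣ),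
    LevHypK (crvK g) (fun i => ptk k (w i)) m d k (nu k d m) (fun l => phk k (x l))
      (fun l => ∏ i, evK (x l) (th (w i))) (fun l => (∏ i, evK (x l) (th (w i))) ^ m)
      (fun l j ρ => SER k d m w (x l) j ρ)

/-! ### Part B: plane geometry over a field -/

/-- GRKD (1.5 h, hypothesis Tate.S_SEM). The filtered rank lemma with levels of different dimensions and
`F lam = 0`. (Adapt Helper32/Tate/GRK.lean.)
PROOF. Choose complements `C_j` (`j < lam`): `F j = C_j ⊕ F (j+1)`, `F lam = 0`. Let `V' = ∏_{j<lam} C_j` and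
for `t ∈ ℕ` let `Λ_t : V' → U`, `(z_j) ↦ ∑_j L_{j+t} z_j` (`j + t < n`, else `0`). For `ε ≠ 0`:
`Ψ_ε (∑_j ε^{-j} z_j) = ∑_t ε^t Λ_t (z_j)` because `L_i z_j = 0` for `i < j`. So
`rank (Ψ_ε on F 0) ≥ dim V' - dim ker Λ_0` for all `ε` outside a finite set (S_SEM, add `0`), and
`(z_j) ↦ (a_j z_j)` is injective on `V'` and maps `ker Λ_0` into `ker (∑ β_j ∘ proj_j)`. -/
def S_GRKD : Prop := ∀ (K : Type) [Field K] (V U : Type) [AddCommGroup V] [Module K V]
  [AddCommGroup U] [Module K U] (lam n : ℕ) (A : Fin lam → Type) [∀ j, AddCommGroup (A j)]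
  [∀ j, Module K (A j)] [∀ j, FiniteDimensional K (A j)]
  (F : ℕ → Submodule K V) [FiniteDimensional K (F 0)] (L : ℕ → V →ₗ[K] U)
  (a : ∀ j : Fin lam, F j →ₗ[K] A j) (β : ∀ j : Fin lam, A j →ₗ[K] U), (∀ j, F (j + 1) ≤ F j) →
  0 < n → lam ≤ n → F lam = ⊥ →
  (∀ i j, i < j → ∀ z ∈ F j, L i z = 0) →
  (∀ (j : Fin lam) (z : F j), L j (z : V) = β j (a j z)) →
  (∀ (j : Fin lam) (z : F j), a j z = 0 → (z : V) ∈ F (j + 1)) →
  ∃ E : Finset K, ∀ ε ∉ E,
    finrank K (F 0 ⊓ LinearMap.ker (∑ i ∈ Finset.range n, ε ^ i • L i) : Submodule K V) ≤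
        finrank K (LinearMap.ker (∑ j : Fin lam, (β j) ∘ₗ (LinearMap.proj j :
          (∀ j : Fin lam, A j) →ₗ[K] A j)))

/-- DRPK (1 h, hypotheses Tate.S_VAA, S_VAB). Multiplication by the equation moves up one level. (Adapt
Helper94/Tate/DRP.lean.)
PROOF. (1) degree `k i + (d - k (j + i))` (if `d - k (j + i) < 0` then `z = 0`), multiplicity
`i + (m - (j + i)) ≥ m - j`. (2) If `g z ∈ WK .. j`: `g ≠ 0` (there is an `i` with `g ∉ Van (P i) 2`), so if
`z ≠ 0` it is homogeneous of degree `d - k j - k` (which is `≥ 0`); S_VAA (2) with `o = 1`. -/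
def S_DRPK : Prop := ∀ (K : Type) [Field K] (ι : Type) [Fintype ι] [Nonempty ι]
  (g : MvPolynomial (Fin 3) K) (P : ι → Fin 3 → K) (m d k : ℕ), 1 ≤ k → g.IsHomogeneous k →
  (∀ i, g ∈ Van (P i) 1 ∧ g ∉ Van (P i) 2) →
  (∀ (j i : ℕ) (z : MvPolynomial (Fin 3) K), z ∈ WK P m d k (j + i) → g ^ i * z ∈ WK P m d k j) ∧
  (∀ (j : ℕ) (z : MvPolynomial (Fin 3) K), g * z ∈ WK P m d k j → z ∈ WK P m d k (j + 1)) ∧
  (∀ j, d < k * j → WK P m d k j = ⊥) ∧ ∀ j, FiniteDimensional K (WK P m d k j)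

/-- MIK (2.5 h, hypotheses S_GRKD, S_DRPK, Tate.S_EXP, S_JJI, S_VAB). THE MAIN INEQUALITY. (Adapt
Helper94/Tate/MIA.lean: there the levels `j0, ..., j0 + lam - 1` with the same `κ`, here all levels
`0, ..., d / k`.)
PROOF. Put `V = MvPolynomial (Fin 3) K`, `lam = d / k + 1`, `F j = g^j * WK P m d k j` (image under the
injective map `g^j *`), `F (j+1) ≤ F j`, `F 0 = WK P m d k 0`, `F lam = 0` (`k lam > d`). `a_j (g^j z) =` the
`a` of LevHypK at level `j ≤ d / k` applied to `z`; if it is `0` then `z = g z'`,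
`z' ∈ WK P m d k (j + 1)`. `U = Fin b → Fin M → Fin M → K`. For each `l : Fin b` let `L^l_i` be the maps of S_EXP
for `(h l, v l, Θ l, Y l)`, and `L_i z = (l, α, β) ↦` the coefficient of `s^α t^β` of `B_l⁻¹ * L^l_i z` if
`α + β < M`, and `0` otherwise. Then `L_i = 0` on `F j` for `i < j`, and for `g^j z ∈ F j`:
`B_l⁻¹ L^l_j (g^j z) = B_l⁻¹ (1 + t)^j Y_l^j Θ_l^j aeval (h l) z = (1+t)^j Y_l^j ∑_r a_r S_{l, j, r}`, whose
coefficient of `s^α t^β` is `C(j, β) Y_l^j ∑_r a_r coeff α S_{l,j,r}`: this defines `β_j`, and the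
kernel of `∑ β_j ∘ proj_j` is `KerK M lam ν Y S`. With `n = d + lam + 1`, by GRKD for all `ε` outside a finite
set `dim (F 0 ⊓ ker Ψ_ε) ≤ dim KerK`, where `Ψ_ε = ∑ ε^i L_i` sends `z` to the coefficients of
`B_l⁻¹ * tst (h l) (v l) ε z`. Take such an `ε` (`K` infinite) and `P' l = nP (h l) (v l) ε`: a form
`z ∈ Van (P' l) M` satisfies `tst (h l) (v l) ε z ∈ (s, t)^M` (S_VAB (4)), so S_JJI applies (also to the
product with `B_l⁻¹`) and the left side is contained in `F 0 ⊓ ker Ψ_ε`. -/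
def S_MIK : Prop := ∀ (K : Type) [Field K] [Infinite K] (ι : Type) [Fintype ι] [Nonempty ι]
  (g : MvPolynomial (Fin 3) K) (P : ι → Fin 3 → K) (m d k b M : ℕ) (ν : ℕ → ℕ)
  (h : Fin b → Fin 3 → PowerSeries K) (v Θ B : Fin b → PowerSeries K) (Y : Fin b → K)
  (S : Fin b → ℕ → ℕ → PowerSeries K), 1 ≤ k → g.IsHomogeneous k →
  (∀ i, g ∈ Van (P i) 1 ∧ g ∉ Van (P i) 2) →
  (∀ i, MvPolynomial.aeval (h i) g = 0) →
  (∀ i, MvPolynomial.aeval (h i) (MvPolynomial.pderiv 0 g) * v i = PowerSeries.C (Y i) * Θ i) →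
  (∀ i, PowerSeries.constantCoeff (B i) ≠ 0) → LevHypK g P m d k ν h Θ B S →
  ∃ P' : Fin b → Fin 3 → K,
    finrank K (Fm K d ⊓ (⨅ i, Van (P i) m) ⊓ ⨅ l, Van (P' l) M :
      Submodule K (MvPolynomial (Fin 3) K)) ≤ finrank K (KerK M (d / k + 1) ν Y S)

/-- DIMK (1 h). Rank and kernel.
PROOF. `KerK` is the kernel of the linear map `(∀ j : Fin lam, Fin (ν j) → K) → (Fin b × Fin M × Fin M → K)`,
(conditions with `α + β < M`, `0` otherwise), whose values at the basis vectors `(j, r)`, `(j, r) ∈ C`, are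
linearly independent by hypothesis; so the rank is `≥ |C|`, and the dimension of the source is
`∑ ν j`. -/
def S_DIMK : Prop := ∀ (K : Type) [Field K] (b M lam : ℕ) (ν : ℕ → ℕ) (Y : Fin b → K)
  (S : Fin b → ℕ → ℕ → PowerSeries K) (C : Finset (ℕ × ℕ)), (∀ c ∈ C, c.1 < lam ∧ c.2 < ν c.1) →
  (∀ a : ℕ × ℕ → K, (∀ (i : Fin b) (α β : ℕ), α + β < M →
    ∑ c ∈ C, a c * (Y i ^ c.1 * (c.1.choose β : K) * PowerSeries.coeff α (S i c.1 c.2)) = 0) →
      ∀ c ∈ C, a c = 0) →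
  finrank K (KerK M lam ν Y S) + C.card ≤ ∑ j ∈ Finset.range lam, ν j

/-! ### Part C: independence of the columns from independence of lattice points -/

/-- PRDR (0.7 h). Tate.S_PRD with REAL weights. (Copy Helper99/Tate/PRD.lean, `ℚ`-weights become
`ℝ`-weights.) -/
def S_PRDR : Prop := ∀ (G : Type) [AddCommGroup G] (bw : G →+ ℝ) (ι : Type) (s : Finset ι)
  (F : ι → PowerSeries (AddMonoidAlgebra ℚ G)) (om : ι → ℝ) (Pn : ι → ℕ) (Pg : ι → G),
  (∀ c ∈ s, ∀ (N : ℕ) (g : G), (PowerSeries.coeff N (F c)).coeff g ≠ 0 →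
    om c ≤ N + bw g ∧ (om c = N + bw g → N = Pn c ∧ g = Pg c)) →
  (∀ (N : ℕ) (g : G), (PowerSeries.coeff N (∏ c ∈ s, F c)).coeff g ≠ 0 →
    ∑ c ∈ s, om c ≤ N + bw g ∧
      (∑ c ∈ s, om c = N + bw g → N = ∑ c ∈ s, Pn c ∧ g = ∑ c ∈ s, Pg c)) ∧
  (∑ c ∈ s, om c = ((∑ c ∈ s, Pn c : ℕ) : ℝ) + bw (∑ c ∈ s, Pg c) →
  ((∀ c ∈ s, om c = Pn c + bw (Pg c)) →
    (PowerSeries.coeff (∑ c ∈ s, Pn c) (∏ c ∈ s, F c)).coeff (∑ c ∈ s, Pg c) =
      ∏ c ∈ s, (PowerSeries.coeff (Pn c) (F c)).coeff (Pg c)) ∧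
  ((∃ c ∈ s, om c ≠ Pn c + bw (Pg c)) →
    (PowerSeries.coeff (∑ c ∈ s, Pn c) (∏ c ∈ s, F c)).coeff (∑ c ∈ s, Pg c) = 0))

/-- DETR (1 h, hypothesis S_PRDR). Tate.S_DET with REAL weights. (Copy Helper63/Tate/DET.lean.) -/
def S_DETR : Prop := ∀ (G Row Col I : Type) [AddCommGroup G] [Fintype Row] [Fintype Col]
  [DecidableEq I] (bw : G →+ ℝ) (pt : Row → I) (ist : Col → I)
  (M : Row → Col → PowerSeries (AddMonoidAlgebra ℚ G)) (om : Col → ℝ) (ta : I → ℝ)
  (Pn : Col → ℕ) (Pg : Col → G) (v : Row → Col → ℚ),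
  (∀ ρ c (N : ℕ) (g : G), (PowerSeries.coeff N (M ρ c)).coeff g ≠ 0 →
    om c + ta (pt ρ) ≤ N + bw g ∧
      (om c + ta (pt ρ) = N + bw g → pt ρ = ist c ∧ N = Pn c ∧ g = Pg c)) →
  (∀ c, om c + ta (ist c) = Pn c + bw (Pg c)) →
  (∀ ρ c, pt ρ = ist c → (PowerSeries.coeff (Pn c) (M ρ c)).coeff (Pg c) = v ρ c) →
  (∀ a : Col → ℚ, (∀ ρ, ∑ c ∈ Finset.univ.filter (fun c => ist c = pt ρ), v ρ c * a c = 0) →
    a = 0) →
  ∀ (L : Type) [Field L] (f : PowerSeries (AddMonoidAlgebra ℚ G) →+* L), Function.Injective f →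
    ∀ a : Col → L, (∀ ρ, ∑ c, f (M ρ c) * a c = 0) → a = 0

/-- GENK (0.8 h). A field with algebraically independent elements. (Adapt Helper66/Tate/GEN.lean.)
PROOF. `GG r p` is a free abelian group, so `ℚ[GG]` is a domain; let `F` be its field of fractions and
`w i, x l, y l` the images of the basis elements. The `monK w x y g` are the images of the basis
`single g 1` of `ℚ[GG]`. Distinctness: two different monomials of an independent family are
different. -/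
def S_GENK : Prop := ∀ r p : ℕ, ∃ (F : Type) (_ : Field F) (_ : CharZero F)
  (w : Fin r × Fin p → Fˣ) (x y : Fin r → Fˣ), GenK w x y ∧ Function.Injective w ∧ ∀ l i, x l ≠ w i

/-- ENTK (2 h, hypotheses Tate.S_EVC, S_THC). The entries are images of the generic entries.
PROOF. Let `ιG : ℚ[GG] → F` be the ring homomorphism `g ↦ monK w x y g` (`AddMonoidAlgebra.lift`), injective
by GenK, and `f : (ℚ[GG])⟦q⟧ → F⟦q⟧ → KK F` (`PowerSeries.map ιG`, then `algebraMap`), injective. Let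
`ψ : ℚ[HH] → F[T, 1/T]`, `(n, g) ↦ C (∏ w_i^{g i}) * T^n`, a ring homomorphism. `PowerSeries.map ψ` maps
`thG i` to `th (w i)` (compare the definitions: `Th 1 0 (-w_i⁻¹)`, coefficient `(-w_i⁻¹)^a = (-1)^a w_i^(-a)`,
exponent `0 + 1 * a`), `ThG r p κ ρ e` to `Th κ ρ (∏ (-w_i)^e)` (`c^a = (-1)^{r p e a} ∏ w_i^{e a}`), hence
`FG k r p d m j ρ` to the element `Φ = (∏ th (w i))^(j - m) * (1 or Th ..)` of `SS F` with
`evK (x l) Φ = SER k d m w (x l) j ρ`. By S_EVC the coefficient of `q^N` of the coefficient of `s^α` of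
`evx (x l) Φ` is the sum of `a * x_l^n * C(n, α)` over the monomials `a T^n` of the coefficient of `q^N` of
`Φ`; this is additive, and on the image of `c * single (n, g)` it gives
`c (∏ w^g) x_l^n C(n, α)`, which times `y_l^j C(j, β)` is `ιG` of the monomial in ENT
(`monK (exG l j (n, g)) = (∏ w^g) x_l^n y_l^j`). -/
def S_ENTK : Prop := ∀ (F : Type) [Field F] [CharZero F] (k r p d m : ℕ)
  (w : Fin r × Fin p → Fˣ) (x y : Fin r → Fˣ), GenK w x y →
  ∃ f : PowerSeries (AddMonoidAlgebra ℚ (GG r p)) →+* KK F, Function.Injective f ∧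
    ∀ (l : Fin r) (α β j ρ : ℕ), (k * j = d ∨ ρ < kap k d m j) →
      f (ENT k d m l α β j ρ) =
      algebraMap (OO F) (KK F) (PowerSeries.C ((y l : Fˣ) : F)) ^ j * (j.choose β : KK F) *
        PowerSeries.coeff α (SER k d m w (x l) j ρ)

/-- EXH (0.8 h). The extreme monomial of the theta function of degree one.
PROOF. The monomials are `(a (a-1)/2, (a, -a e_i))`, `a ∈ ℤ`, of weight `a (a - 1)/2 + a u`,
`u = wx l - ww (group of i) = ((i.1 : ℕ) - l)/r + eta/k²`. If `l ≤ i.1` then `0 < u < 1` (as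
`0 < eta / k² = eta / (r p) < 1/r`), the weight is `≥ 0` with equality only for `a = 0`
(`a (a - 1)/2 + a u = a ((a - 1)/2 + u)`: for `a ≥ 1` positive; for `a ≤ -1` the factor `(a-1)/2 + u < 0`).
If `i.1 < l` then `-1 < u < 0` and with `a = 1 + a'`: weight `= u + a' (a' + 1)/2 + a' u =
u + a' ((a' + 1)/2 + u)`, which is `≥ u` with equality only for `a' = 0`. Coefficients: `(-1)^0 = 1`,
`(-1)^1 = -1` (for `N = 0` the two terms `a = 0, 1` of the sum have different exponents). -/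
def S_EXH : Prop := ∀ (k r p : ℕ) (Om eta : ℝ), 1 ≤ r → 1 ≤ p → r * p = k ^ 2 → 0 < eta →
  eta < p → ∀ (l : ℕ) (i : Fin r × Fin p), l < r →
  (∀ (N : ℕ) (h : HH r p), (PowerSeries.coeff N (thG i)).coeff h ≠ 0 →
    (if l ≤ (i.1 : ℕ) then 0 else (((i.1 : ℕ) : ℝ) - l) / r + eta / k ^ 2) ≤
      N + bH k r p Om eta l h ∧
    ((if l ≤ (i.1 : ℕ) then 0 else (((i.1 : ℕ) : ℝ) - l) / r + eta / k ^ 2) =
      N + bH k r p Om eta l h → N = 0 ∧ h = if l ≤ (i.1 : ℕ) then 0 else (1, -(Pi.single i 1)))) ∧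
  (if l ≤ (i.1 : ℕ) then (0 : ℝ) else (((i.1 : ℕ) : ℝ) - l) / r + eta / k ^ 2) =
    bH k r p Om eta l (if l ≤ (i.1 : ℕ) then 0 else (1, -(Pi.single i 1))) ∧
  (PowerSeries.coeff 0 (thG i)).coeff (if l ≤ (i.1 : ℕ) then 0 else (1, -(Pi.single i 1))) ≠ 0

/-- EXT (1.5 h). The monomials of the theta function of degree `κ`: weights.
PROOF. The monomials of `ThG r p κ ρ e` are (`N = qe κ ρ a`, `h = (ρ + κ a, e a)`), `a ∈ ℤ`, coefficient
`± 1` (for given `N` different `a` with `qe κ ρ a = N` have different `n = ρ + κ a`; `a ∈ Icc (-N) (N+1)` is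
automatic, see Tate.S_THC). With `n = ρ + κ a`: `qe κ ρ a = (n² - κ n)/(2κ) - (ρ² - κ ρ)/(2κ)`, and
`bH l h = n wx_l + e a ∑_i ww = n wx_l + e ((n - ρ)/κ) Om`, because
`∑_i ww_i = p ∑_{l' < r} (xi - l'/r - eta/k²) = k² xi - p (r - 1)/2 - eta = Om`,
`xi = (Om + eta + p (r-1)/2)/k²` (`r p = k²`). Hence
`N + bH l h = (n² - 2 n Cl)/(2κ) - (ρ² - κ ρ)/(2κ) - e ρ Om/κ`, `Cl = κ/2 - κ wx_l - e Om`, and
`Cl = C_0 + l κ/r`. Completing the square gives the statement. -/
def S_EXT : Prop := ∀ (k r p : ℕ) (Om eta : ℝ), 1 ≤ r → 1 ≤ p → r * p = k ^ 2 → 1 ≤ k →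
  ∀ (κ ρ e l : ℕ), 1 ≤ κ → ρ < κ → ∀ C0 : ℝ,
  C0 = κ / 2 - κ * wx k r p Om eta 0 - e * Om →
  (∀ (N : ℕ) (h : HH r p), (PowerSeries.coeff N (ThG r p κ ρ e)).coeff h ≠ 0 →
    ∃ a : ℤ, h = (ρ + κ * a, fun _ => (e : ℤ) * a) ∧ qe κ ρ a = N ∧
      (PowerSeries.coeff N (ThG r p κ ρ e)).coeff h = (-1 : ℚ) ^ ((r * p * e : ℕ) * a)) ∧
  ∀ a : ℤ, 0 ≤ qe κ ρ a ∧
    (PowerSeries.coeff (qe κ ρ a).toNat (ThG r p κ ρ e)).coeff
      (ρ + κ * a, fun _ => (e : ℤ) * a) = (-1 : ℚ) ^ ((r * p * e : ℕ) * a) ∧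
    ((qe κ ρ a : ℤ) : ℝ) + bH k r p Om eta l ((ρ : ℤ) + κ * a, fun _ => (e : ℤ) * a) =
      (((ρ : ℤ) + κ * a : ℤ) - C0 - l * κ / r) ^ 2 / (2 * κ) - (C0 + l * κ / r) ^ 2 / (2 * κ) -
        ((ρ : ℝ) ^ 2 - κ * ρ) / (2 * κ) - e * ρ * Om / κ

/-- WID (1 h). The identity of weights which makes the windows of all the blocks fit.
PROOF. Let `t = d/k`, `xi = wx 0`, `κ_j = k² (t - max(j,m))` (real number equal to `kap k d m j` if
`k max(j,m) ≤ d`), `C_j = κ_j/2 - κ_j xi - (m - j)^+ Om`. (1) `C_j - κ_j/(2r) = Aj`: indeed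
`κ_j (1/2 - 1/(2r) - xi) = (t - max) (p (r-1)/2 - k² xi) = -(t - max)(Om + eta)` by `k² = r p` and the
definition of `xi`, and `max(j,m) - j = (m-j)^+`. (2) the number
`E_j = -(C_j + l κ_j/r)²/(2κ_j) + C_j²/(2κ_j) + (j-m)^+ tau_l + j Om l/r + ta_l` is `0`, where
`tau_l = -p l (l+1)/(2r) + p l eta/k²` and
`ta_l = C_m l/r + l² κ_m/(2r²) - Om l m/r`. As `-(C + lκ/r)²/(2κ) + C²/(2κ) = -C l/r - l² κ/(2r²)` this is affine
in `j` on `j ≤ m` and on `j ≥ m`, zero for `j = m`; the slope for `j ≤ m` is `-Om l/r + Om l/r = 0`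
(`κ_j` is constant, `C_j` has slope `Om`); the slope for `j ≥ m` (`κ_j` has slope `-k²`, `C_j` slope
`-k² (1/2 - xi)`) is `k² (1/2 - xi) l/r + l² k²/(2r²) + tau_l + Om l/r`, and with `k² = p r` and
`Om = k² xi - p (r-1)/2 - eta` it is
`p l/2 - p l xi + p l²/(2r) - p l (l+1)/(2r) + p l eta/k² + p l xi - p l (r-1)/(2r) - eta l/r = 0`
(`eta/r = p eta/k²`). -/
def S_WID : Prop := ∀ (k r p d m : ℕ) (Om eta : ℝ), 1 ≤ r → 1 ≤ p → r * p = k ^ 2 → 1 ≤ k →
  k * m < d → ∀ (j l : ℕ) (κ C Cm κm : ℝ), k * j ≤ d → κ = kap k d m j → κm = kap k d m m →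
  C = κ / 2 - κ * wx k r p Om eta 0 - ((m - j : ℕ) : ℝ) * Om →
  Cm = κm / 2 - κm * wx k r p Om eta 0 →
  C - κ / (2 * r) = Aj k d m Om eta j ∧
  -(C * l / r) - (l : ℝ) ^ 2 * κ / (2 * r ^ 2) +
    ((j - m : ℕ) : ℝ) * (-(p * l * (l + 1) / (2 * r)) + p * l * eta / k ^ 2) + j * (Om * l / r) +
    (Cm * l / r + (l : ℝ) ^ 2 * κm / (2 * r ^ 2) - Om * l * m / r) = 0

/-- NCT (0.8 h). The nearest centre and the gap.
PROOF. `n - n' = κ b`, `b ∈ ℤ`. Put `δ = n - (A + (l + 1/2) κ/r)`, so `-κ/(2r) < δ < κ/(2r)` (strict on the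
left because `n ≠ A + l κ/r`: by hypothesis `A + l κ/r ≠ n`). For the other pair
`n' - (A + (l' + 1/2) κ/r) = δ - κ b + (l - l') κ/r = δ + (κ/r) c`, `c = l - l' - r b`, an integer; it is not
`0`: if `c = 0` then `r ∣ l - l'`, `|l - l'| < r` so `l = l'` and `b = 0`, `n = n'`. So
`(n' - centre')² - δ² = (κ/r) c (2δ + (κ/r) c) ≥ (κ/r) (κ/r - 2|δ|)` for every integer `c ≠ 0`
(`|c| ≥ 1`: `c (2δ + (κ/r) c) ≥ |c| ((κ/r)|c| - 2|δ|) ≥ κ/r - 2|δ| > 0`). -/
def S_NCT : Prop := ∀ (r : ℕ) (κ A : ℝ) (kz : ℕ), 1 ≤ r → 1 ≤ kz → κ = kz → ∀ (l : ℕ) (n : ℤ), l < r →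
  A + l * (κ / r) < n → (n : ℝ) < A + (l + 1) * (κ / r) → ∃ gap : ℝ, 0 < gap ∧
    ∀ (l' : ℕ) (n' : ℤ), l' < r → (kz : ℤ) ∣ n - n' → (l', n') ≠ (l, n) →
      (n - (A + (l + 1 / 2) * (κ / r))) ^ 2 + gap ≤ (n' - (A + (l' + 1 / 2) * (κ / r))) ^ 2

/-- EXF (2 h, hypotheses S_PRDR, S_EXH, S_EXT, S_WID, S_NCT). The extreme monomial of the generic section.
STATEMENT. For a column `(j, n)` of the block `l` (`InB`), `ρ = n mod kap` (`ρ = 0` and `n = 0` if
`k j = d`) there are a real `om`, `gap > 0`, an exponent `N₀` and a sign `sg ≠ 0` such that all monomials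
`(N, h)` of `FG .. j ρ` satisfy, for every block `l'`,
`om ≤ N + bH l' h + j Om l'/r + ta l'`, where `ta l'` is the `ta_l` of WID (it depends only on `l'`), with
equality only for `l' = l` (if `k j < d`), `N = N₀`, `h = hx l`, and `≥ om + gap` in all other cases if
`k j < d`; in the case `k j = d` for every `l'` equality holds only for `h = hx l'`. Here
`hx l = (n + (j-m)^+ p l, ..)`.
PROOF. `FG` is a product of `(j - m)` copies of each `thG i` and of one `ThG` (or `1`). For a block `l'`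
EXH gives the extreme monomials of the `thG i`: exponents of `T` equal to `0` (`l' ≤ i.1`) or `1`
(`i.1 < l'`), weights `0` or `u`; the sum over `i` of the exponents is `p l'`, the sum of the weights is
`p ∑_{l'' < l'} (-(l' - l'')/r + eta/k²) = tau_{l'}`. For `ThG` the weight of the monomial
`n' = ρ + κ a` is given by EXT: `(n' - C_j - l' κ/r)²/(2κ) - (C_j + l' κ/r)²/(2κ) + const` (`const`
independent of `l'` and `n'`), `e = m - j`. So by WID the total weight of `(n'; extreme monomials of the thG)` is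
`(n' - Aj - (l' + 1/2) κ/r)²/(2κ) + const'` (`C_j = Aj + κ/(2r)`), and any other choice in the factors `thG`
gives more. Every monomial of the product is a product of monomials of the factors, so its weight is
`≥` the sum. `n' ≡ n mod κ`, so NCT gives the inequality with `gap/(2κ)` for the pairs
`(l', n') ≠ (l, n)`; for `(l', n') = (l, n)` use S_PRDR (all factors extreme). To get one `gap` valid for all
other monomials of the block `l` itself take in S_PRDR only the equality case (no gap is needed there). -/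
def S_EXF : Prop := ∀ (k r p d m : ℕ) (Om eta : ℝ), 1 ≤ r → 1 ≤ p → r * p = k ^ 2 → 1 ≤ k →
  k * m < d → 0 < eta → eta < p → (∀ j : ℕ, k * j < d → ∀ (l : ℕ) (n : ℤ), l < r →
    Aj k d m Om eta j + l * ((kap k d m j : ℝ) / r) ≠ n) →
  ∃ ta : ℕ → ℝ, ∀ (l j : ℕ) (n : ℤ), l < r → InB k r d m Om eta l j n →
  ∃ (om gap : ℝ) (N₀ : ℕ → ℕ) (hx : ℕ → HH r p), 0 < gap ∧
    (hx l).1 = n + ((j - m : ℕ) : ℤ) * p * l ∧
    (PowerSeries.coeff (N₀ l) (FG k r p d m j (n % (kap k d m j : ℤ)).toNat)).coeff (hx l) ≠ 0 ∧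
    om = N₀ l + bH k r p Om eta l (hx l) + j * (Om * l / r) + ta l ∧
    ∀ (l' : ℕ) (N : ℕ) (h : HH r p), l' < r →
      (PowerSeries.coeff N (FG k r p d m j (n % (kap k d m j : ℤ)).toNat)).coeff h ≠ 0 →
      om ≤ N + bH k r p Om eta l' h + j * (Om * l' / r) + ta l' ∧
      (om = N + bH k r p Om eta l' h + j * (Om * l' / r) + ta l' → N = N₀ l' ∧ h = hx l') ∧
      (k * j < d → l' ≠ l → om + gap ≤ N + bH k r p Om eta l' h + j * (Om * l' / r) + ta l')

/-- BLKK (2.5 h, hypotheses S_DETR, S_ENTK, S_EXF). Independence of the columns from the independence of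
lattice points. (Compare the file of Tate.S_BLK, Helper3/Tate/BLK.lean and its imports.)
PROOF. Apply DETR with `G = GG r p`, rows `(l, α, β)`, `α + β < M`, `pt = l`, columns `c = (j, n) ∈ C`, `ist c` = the
block `l` of `c` (unique: the windows of the blocks are disjoint), `M ρ c = ENT k d m l α β j (n mod kap)`,
`f` of ENTK, `bw = bG`. A monomial `(N, g)` of `ENT l' ..` has `g = exG l' j h` with `(N, h)` a monomial of `FG`
(`exG l' j` is injective in `h`), and `bG (exG l' j h) = bH l' h + j Om l'/r`. Let `gap` be the smallest of the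
`gap`s of the columns of `C` with `k j < d`, and `δ = gap/(2 r)` (`δ = 1` if there are none). Take
`ta_DETR l' = -(ta l' + δ l')` and `om_DETR c = om c - δ... `: precisely `om_DETR c = om c + δ (ist c) `. Hypothesis
one of DETR: for `l'` and a monomial of the entry: if `l' = ist c` it is EXF (equality case:
`N = N₀, h = hx`); if `l' ≠ ist c` and `k j < d`: weight `+ ta l' + δ l' ≥ om c + gap > om c + δ (ist c)` since
`δ r < gap`; if `k j = d`: `ist c = 0`, weight `+ ta l' + δ l' ≥ om c + δ l' > om c`. So equality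
forces `l' = ist c`. `Pn c = N₀`, `Pg c = exG l j (hx l)`, `v ρ c = sg * C(hx.1, α) * C(j, β)`,
`sg` = the coefficient of FG, nonzero. Last hypothesis: for each `l` the columns with `ist c = l` are mapped
injectively to the lattice points `(j, n + (j-m)^+ p l)`, so `Indep M` of the image, applied to
`sg_c a_c`, gives `a_c = 0` (`Ring.choose (j : ℤ) β = C(j, β)`). The residues: `k j = d` or
`(n mod kap) < kap` as ENTK requires. -/
def S_BLKK : Prop := ∀ (F : Type) [Field F] [CharZero F] (k r p d m M : ℕ) (Om eta : ℝ)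
  (w : Fin r × Fin p → Fˣ) (x y : Fin r → Fˣ), GenK w x y → 1 ≤ r → 1 ≤ p → r * p = k ^ 2 →
  1 ≤ k → k * m < d → 0 < eta → eta < p → (∀ j : ℕ, k * j < d → ∀ (l : ℕ) (n : ℤ), l < r →
    Aj k d m Om eta j + l * ((kap k d m j : ℝ) / r) ≠ n) →
  ∀ C : Finset (ℕ × ℤ), (∀ c ∈ C, ∃ l < r, InB k r d m Om eta l c.1 c.2) →
  (∀ l < r, ∀ S : Finset (ℤ × ℤ), (∀ q ∈ S, ∃ c ∈ C, InB k r d m Om eta l c.1 c.2 ∧
    q = ((c.1 : ℤ), c.2 + ((c.1 - m : ℕ) : ℤ) * p * l)) → Indep M S) →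
  ∀ a : ℕ × ℤ → KK F, (∀ (l : Fin r) (α β : ℕ), α + β < M →
    ∑ c ∈ C, a c * (algebraMap (OO F) (KK F) (PowerSeries.C ((y l : Fˣ) : F)) ^ c.1 *
      (c.1.choose β : KK F) *
      PowerSeries.coeff α (SER k d m w (x l) c.1 (c.2 % (kap k d m c.1 : ℤ)).toNat)) = 0) →
    ∀ c ∈ C, a c = 0

/-! ### Part D: lattice points -/

/-- COLC (1.2 h, hypothesis Tate.S_COL). Points on parallel lines, counting version.
PROOF. For a line `X` meeting `S` let `c(X)` be the number of its points and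
`π(X) = #{X' meeting S : c(X') > c(X), or c(X') = c(X) and X' < X}`: injective on the lines meeting `S`
(it is the position of `X` in a linear order). All these `X'` and `X` itself lie in `lns S (c(X))`, so
`π(X) + 1 ≤ |lns S (c(X))| ≤ M + 1 - c(X)`, `c(X) + π(X) ≤ M`. Tate.S_COL with `P = 1`
(`p.1 - 1 * p.2`), and `π` extended injectively or arbitrarily outside. -/
def S_COLC : Prop := ∀ (M : ℕ) (S : Finset (ℤ × ℤ)),
  (∀ s : ℕ, 1 ≤ s → (lns S s).Nonempty → (lns S s).card + s ≤ M + 1) → Indep M S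

/-- COLS (1.5 h, hypothesis S_COLC). The opposite: enough points on enough lines.
PROOF. Sort the lines meeting `S` by the number of points, decreasing: `X_0, X_1, ...`. By hypothesis
(`s = M - i`) there are at least `i + 1` lines with at least `M - i` points, so `X_i` has at least `M - i`
points, `0 ≤ i < M`. Choose exactly `M - i` points of `S` on `X_i`: a set `S'` with
`∑_{i<M} (M - i) = M (M + 1)/2` points. For `S'` the lines with at least `s` points are
`X_0, ..., X_{M-s}`, so `|lns S' s| + s = M + 1` for `1 ≤ s ≤ M` and COLC applies. (Or build `S'` by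
induction on `i`.) -/
def S_COLS : Prop := ∀ (M : ℕ) (S : Finset (ℤ × ℤ)),
  (∀ s : ℕ, 1 ≤ s → s ≤ M → M + 1 ≤ (lns S s).card + s) →
    ∃ S' ⊆ S, S'.card = M * (M + 1) / 2 ∧ Indep M S'

/-- TRI (0.7 h). Translation.
PROOF. `C(n + c, α) = ∑_i C(c, α - i) C(n, i)` (Vandermonde, `Ring.add_choose_eq` or
`Ring.choose_add`; generalized binomial coefficients), so the functions
`C(j, β) C(n + c, α)`, `α + β < M`, are combinations of the functions `C(j, β) C(n, i)`, `i + β < M`, and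
conversely (`c ↦ -c`). Apply the converse to the relation of the translated set. -/
def S_TRI : Prop := ∀ (M : ℕ) (S : Finset (ℤ × ℤ)) (c : ℤ), Indep M S →
  Indep M (S.image fun q => (q.1, q.2 + c))

/-- LPE (1.2 h). The parameters, empty case.
PROOF. Put `t = d/k > m ≥ 1`, `u0 = t - m > 0`. `p (t² - m²) < m²` because
`p (d² - k² m²) = p (d² - r p m²) < p r m² = k² m²` (divide by `k²`). So `p u0 (t + m) < m²`, i.e.
`p u0/m < (m - p u0)/t`; choose `rho` strictly between (it lies in `(0, 1)`: `m - p u0 < m < t`). Then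
`p u0 < rho m`, `rho t + p u0 < m`. The last two conditions hold for all small `eta > 0`; the excluded
values of `eta` are countably many: for each `j` with `k j < d`, `l`, `n` the equation
`Aj + l kap/r = n` is linear in `eta` with coefficient `-(t - max(j,m)) ≠ 0`. (An interval is not
countable: `Set.Countable` and `Cardinal.mk_Ioo_real` or `not_countable`.) Here `Om = 1 - rho`. -/
def S_LPE : Prop := ∀ k r p d m : ℕ, 3 ≤ k → 1 ≤ r → r * p = k ^ 2 → 1 ≤ m → k * m < d →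
  d ^ 2 < (k ^ 2 + r) * m ^ 2 → ∃ rho eta : ℝ, 0 < eta ∧ eta < p ∧ eta < rho ∧ rho < 1 ∧
    p * ((d : ℝ) / k - m) < rho * m ∧ rho * ((d : ℝ) / k) + p * ((d : ℝ) / k - m) < m ∧
    eta * ((d : ℝ) / k - m) * (p + rho) / rho ≤ (1 - rho) * (m - p * ((d : ℝ) / k - m) / rho) ∧
    ∀ j : ℕ, k * j < d → ∀ (l : ℕ) (n : ℤ),
      Aj k d m (1 - rho) eta j + l * ((kap k d m j : ℝ) / r) ≠ n

/-- LCE (2.5 h, hypothesis S_COLC). The lattice points of a block are independent, empty case.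
PROOF. `t = d/k`, `u = t - q.1`, `u0 = t - m`, `mn = min(u, u0)`, `kap/r = p mn` (`kap k d m j =
k² (t - max(j,m))`), `Aj = -u Om - mn eta`. For a point `q = (j, n)` of `S` put `Z = t - (j - n)`, so that
(`Om = 1 - rho`, `j = t - u`) the conditions `Aj ≤ n < Aj + kap/r` say
(*) `rho u - eta mn ≤ Z < rho u + (p - eta) mn`, `0 < u ≤ t`; the exceptional point (`k j = d`, `n = 0`) has
`u = 0`, `Z = 0`. Points on the same line have the same `Z ∈ t + ℤ` and different `u ∈ t + ℤ`. From (*)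
(`mn ≤ u`, `mn ≤ u0`): (a) `Z < rho u + (p - eta) u0`; (b) `Z < (rho + p - eta) u`; (c)
`(rho - eta) u ≤ Z`; (d) `rho u ≤ Z + eta u0`. Let a line `Z` have `≥ s` points, `s ≥ 2`, `σ = s - 1`; it
contains no exceptional point (`Z = 0` and `u > 0` contradict (c)); its largest and smallest `u` satisfy
`u_max ≥ u_min + σ`, so with `u_max ≤ t`, (a), (b), (c), (d):
`Z < rho (t - σ) + (p - eta) u0 =: Zb`; `Z > σ (rho - eta)(rho + p - eta)/p =: Za` [`u_min > Z/(rho+p-eta)`,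
`u_max ≤ Z/(rho - eta)`]; `σ < p u0/rho =: σ*` [(a) at `u_min`, (d) at `u_max`]. The number of elements
of `t + ℤ` in the open interval `(Za, Zb)` is at most `⌈Zb - Za⌉`, and `Zb - Za ≤ m - σ`: the
difference `f(σ) = Zb - Za - (m - σ)` is affine in `σ`, `f(0) = rho t + (p - eta) u0 - m ≤ 0`, and
`f(σ*) = -(1 - rho)(m - p u0/rho) + eta u0 (p/rho + 1) - eta² u0/rho ≤ 0` by the hypothesis on `eta`
[compute: `f(σ*) = rho t - p u0 + (p - eta) u0 - (u0/rho)(rho - eta)(rho + p - eta) - m + p u0/rho`].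
So `|lns S s| ≤ m - σ = m + 1 - s`. For `s = 1`: all `Z` satisfy `0 ≤ Z < rho t + (p - eta) u0 ≤ m` ((c), (a),
`u ≤ t`; `Z = 0` allowed), at most `⌈m⌉ = m` values of `Z ∈ t + ℤ` in `[0, Zb)`. Now COLC. -/
def S_LCE : Prop := ∀ k r p d m : ℕ, 3 ≤ k → 1 ≤ r → r * p = k ^ 2 → 1 ≤ m → k * m < d →
  ∀ rho eta : ℝ, 0 < eta → eta < p → eta < rho → rho < 1 →
    p * ((d : ℝ) / k - m) < rho * m → rho * ((d : ℝ) / k) + p * ((d : ℝ) / k - m) < m →
    eta * ((d : ℝ) / k - m) * (p + rho) / rho ≤ (1 - rho) * (m - p * ((d : ℝ) / k - m) / rho) →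
  ∀ S : Finset (ℤ × ℤ), (∀ q ∈ S, ∃ j : ℕ, q.1 = j ∧
    ((k * j < d ∧ Aj k d m (1 - rho) eta j ≤ q.2 ∧
        (q.2 : ℝ) < Aj k d m (1 - rho) eta j + (kap k d m j : ℝ) / r) ∨
      (k * j = d ∧ q.2 = 0))) → Indep m S

/-- LPR (1.2 h). The parameters, regular case.
PROOF. Put `t = d/k`, `u0 = t - m > 0`, `m ≥ 1`. The hypothesis divided by `k²/p = r`, i.e. multiplied by
`p/k²`: `p (t² - m²) ≥ m² + m + t`, i.e. `p u0 (t + m) ≥ m² + m + t`. Let `c < 1` be close to `1` and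
`rho = (p u0 - c)/m`; `p u0 > 1` (`p u0 (t + m) > m + t`), so `rho > 0`. As `rho > 0` there are `c < 1`
with `(1 + rho/p) c > 1` (at `c = 1` it is `> 1`, continuity). Then `(rho + p)(p u0 - rho m) = (rho + p) c > p` and
`rho t + p u0 = (p u0 - c) t/m + p u0 = (p u0 (t + m) - c t)/m ≥ (m² + m + (1 - c) t)/m > m + 1`. All the
inequalities are strict at `eta = 0`, so they hold for all small `eta > 0`; avoid the countably many
bad `eta` as in LPE. -/
def S_LPR : Prop := ∀ k r p d m : ℕ, 3 ≤ k → 1 ≤ r → r * p = k ^ 2 → 1 ≤ m → k * m < d →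
  k * (k ^ 2 + r) * m ^ 2 + k * r * m + r * d ≤ k * d ^ 2 → ∃ rho eta : ℝ, 0 < rho ∧ 0 < eta ∧
    eta < p ∧ (p - eta) * ((d : ℝ) / k - m) ≥ rho * m ∧
    (rho + (p - eta)) * ((p - eta) * ((d : ℝ) / k - m) - rho * m) ≥ p - eta ∧
    rho * ((d : ℝ) / k) + (p - eta) * ((d : ℝ) / k - m) ≥ m + 1 ∧
    ∀ j : ℕ, k * j < d → ∀ (l : ℕ) (n : ℤ),
      Aj k d m (1 - rho) eta j + l * ((kap k d m j : ℝ) / r) ≠ n

/-- LCR (2.5 h, hypothesis S_COLS). The lattice points of a block, regular case.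
PROOF. Notation of LCE, `p' = p - eta > 0`. Let `S` be the finite set of all `(j, n)`, `j ≥ 0`, `k j < d`,
`Aj ≤ n < Aj + kap/r`. The points of the line `Z ∈ t + ℤ` are the `u ∈ t + ℤ`, `0 < u ≤ t`, with
`rho u - eta mn ≤ Z < rho u + p' mn`; they contain all `u ∈ t + ℤ` with
`max (Z/(rho + p'), (Z - p' u0)/rho) < u ≤ min (t, Z/rho)` (for such `u`: `rho u ≤ Z`, `Z < (rho + p') u`
and `Z < rho u + p' u0`, so `Z < rho u + p' mn`). A half open interval of length `≥ s` contains at least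
`s` elements of `t + ℤ`. The length is `≥ s` as soon as
`s rho (rho + p')/p' ≤ Z ≤ rho (t - s) + p' u0` and `1 ≤ s ≤ m`: the four differences are
`t - (Z - p' u0)/rho ≥ s`; `t - Z/(rho + p') ≥ s` (as `t - s ≥ u0`, `Z ≤ rho (t-s) + p' u0 ≤ (rho + p')(t - s)`);
`Z/rho - (Z - p' u0)/rho = p' u0/rho ≥ m ≥ s`; `Z/rho - Z/(rho + p') = Z p'/(rho (rho + p')) ≥ s`. The number
of `Z ∈ t + ℤ` in this closed interval is at least the floor of its length
`f(s) = rho (t - s) + p' u0 - s rho (1 + rho/p')`, and `f(s) ≥ m + 1 - s` for `0 ≤ s ≤ m`: affine in `s`,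
at `s = 0` it is `rho t + p' u0 ≥ m + 1`, at `s = m`: `rho u0 + p' u0 - m rho (rho + p')/p' =
(rho + p')(p' u0 - rho m)/p' ≥ 1`. So `|lns S s| ≥ m + 1 - s`; COLS. -/
def S_LCR : Prop := ∀ k r p d m : ℕ, 3 ≤ k → 1 ≤ r → r * p = k ^ 2 → 1 ≤ m → k * m < d →
  ∀ rho eta : ℝ, 0 < rho → 0 < eta → eta < p → (p - eta) * ((d : ℝ) / k - m) ≥ rho * m →
    (rho + (p - eta)) * ((p - eta) * ((d : ℝ) / k - m) - rho * m) ≥ p - eta →
    rho * ((d : ℝ) / k) + (p - eta) * ((d : ℝ) / k - m) ≥ m + 1 →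
  ∃ S : Finset (ℤ × ℤ), (∀ q ∈ S, ∃ j : ℕ, q.1 = j ∧
    k * j < d ∧ Aj k d m (1 - rho) eta j ≤ q.2 ∧
        (q.2 : ℝ) < Aj k d m (1 - rho) eta j + (kap k d m j : ℝ) / r) ∧
      S.card = m * (m + 1) / 2 ∧ Indep m S

/-- CBS (1 h). The window of level `j` contains exactly `kap` integers.
PROOF. The columns of level `j`, `k j < d`: the integers `n` with `Aj ≤ n < Aj + kap` (the windows of the
blocks `l < r` fill the window of length `r * (kap/r) = kap`), exactly `kap` of them, one in each class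
modulo `kap`; `k j = d`: one column `(j, 0)`. So `C = ` the set of all `(j, n)`, `j ≤ d/k`, has
`∑_{j ≤ d/k} nu j` elements. -/
def S_CBS : Prop := ∀ (k r d m : ℕ) (Om eta : ℝ), 1 ≤ k → 1 ≤ r → k * m < d →
  ∃ C : Finset (ℕ × ℤ), (∀ c, c ∈ C ↔ ∃ l < r, InB k r d m Om eta l c.1 c.2) ∧
    C.card = ∑ j ∈ Finset.range (d / k + 1), nu k d m j

/-- NUMV (1 h). The number of sections, `k = 3`.
PROOF. `∑_{j ≤ m} 3 (d - 3m) + ∑_{m < j < d/3} 3 (d - 3j) + [3 ∣ d]`. Put `d = 3m + e`, `e ≥ 1`: the first sum is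
`3 e (m + 1)`; with `j = m + i` the rest is `∑_{i ≥ 1, 3i < e} 3 (e - 3i) + [3 ∣ e]` `= C(e-1, 2)`
(induction on `e` in steps of 3: `C(e+2,2) - C(e-1,2) = 3e`; the terms shift: the sum for `e + 3` is
the sum for `e` plus `3 e`). And `C(3m+e+2, 2) - 9 C(m+1, 2) = 3 e (m+1) + C(e-1, 2)`. -/
def S_NUMV : Prop := ∀ d m : ℕ, 3 * m < d →
  ∑ j ∈ Finset.range (d / 3 + 1), nu 3 d m j + 9 * (m + 1).choose 2 = (d + 2).choose 2

/-! ### Part E: final steps over `ℂ` -/

/-- SYM (2 h, hypotheses Tate.S_TRK, S_VAA). From equal to arbitrary multiplicities.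
PROOF. `n ≥ 2` points (if `n = 0` the sum of the `m i` is `0`). By Tate.S_TRK with `K = ℂ`, `N = 0` it
is enough to find ONE `P` with `Fm ℂ d ⊓ ⨅ Van (P i) (m i) = 0`. Suppose there is none. Put `μ = ∑ m i ≥ 1`. The
hypothesis `U` for `(n d, μ)` [`(n d)² < n μ²` because `n d² < μ²`] gives `G ≠ 0`; choose `Q` with
`G(Q) ≠ 0` (`MvPolynomial.funext`, `ℂ` infinite), so `Fm ℂ (n d) ⊓ ⨅ Van (Q i) μ = 0`. For `c : Fin n` (`Fin n`
with addition) the system for the points `i ↦ Q (i + c)` is nonzero: a nonzero form `f_c` of degree `d` of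
multiplicity `≥ m i` at `Q (i + c)`. The product `∏_c f_c` is a nonzero form of degree `n d` with
multiplicity `≥ ∑_c m (j - c) = μ` at `Q j` (S_VAA (1)), contradiction. -/
def S_SYM : Prop := ∀ n : ℕ, 1 ≤ n →
  (∀ d m : ℕ, 1 ≤ m → d ^ 2 < n * m ^ 2 → ∃ G : MvPolynomial (Fin n × Fin 3) ℂ, G ≠ 0 ∧
    ∀ Q : Fin n → Fin 3 → ℂ, MvPolynomial.eval (fun ij : Fin n × Fin 3 => Q ij.1 ij.2) G ≠ 0 →
      (Fm ℂ d ⊓ ⨅ i, Van (Q i) m : Submodule ℂ (MvPolynomial (Fin 3) ℂ)) = ⊥) →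
  ∀ (d : ℕ) (m : Fin n → ℕ), n * d ^ 2 < (∑ i, m i) ^ 2 →
    ∃ G : MvPolynomial (Fin n × Fin 3) ℂ, G ≠ 0 ∧
    ∀ Q : Fin n → Fin 3 → ℂ, MvPolynomial.eval (fun ij : Fin n × Fin 3 => Q ij.1 ij.2) G ≠ 0 →
      (Fm ℂ d ⊓ ⨅ i, Van (Q i) (m i) : Submodule ℂ (MvPolynomial (Fin 3) ℂ)) = ⊥

/-- SCL (1.5 h, hypothesis Tate.S_VAA). Scaling.
PROOF. Put `q = max d (k m)`, `n = k² + r`, `q² < n m²` (both `d² < n m²` and `k² m² < n m²`), `t = 2 q r + r² + 1`,
`c = t q / r + 1`, `d' = r c`: `t q < d' ≤ t q + r`, so `d' > t d`, `d' > k (t m)`, and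
`d'² ≤ (t q + r)² = t² q² + 2 t q r + r² < t² q² + t² ≤ t² (q² + 1) ≤ n (t m)²`. `r ∣ k (d' - k t m)` because
`r ∣ d'` and `r ∣ k²`. So the hypothesis gives `G` for `(d', t m)`; if `G(Q) ≠ 0` and `f` is a nonzero form of
degree `d` with multiplicity `≥ m` at the `Q i` then `f^t * X_0^(d' - t d)` is a nonzero form of degree `d'` with
multiplicity `≥ t m`, contradiction. -/
def S_SCL : Prop := ∀ k r : ℕ, 3 ≤ k → 1 ≤ r → r ∣ k ^ 2 →
  (∀ d m : ℕ, 1 ≤ m → k * m < d → d ^ 2 < (k ^ 2 + r) * m ^ 2 → r ∣ k * (d - k * m) →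
    ∃ G : MvPolynomial (Fin (k ^ 2 + r) × Fin 3) ℂ, G ≠ 0 ∧ ∀ Q : Fin (k ^ 2 + r) → Fin 3 → ℂ,
      MvPolynomial.eval (fun ij : Fin (k ^ 2 + r) × Fin 3 => Q ij.1 ij.2) G ≠ 0 →
      (Fm ℂ d ⊓ ⨅ i, Van (Q i) m : Submodule ℂ (MvPolynomial (Fin 3) ℂ)) = ⊥) →
  ∀ d m : ℕ, 1 ≤ m → d ^ 2 < (k ^ 2 + r) * m ^ 2 →
    ∃ G : MvPolynomial (Fin (k ^ 2 + r) × Fin 3) ℂ, G ≠ 0 ∧ ∀ Q : Fin (k ^ 2 + r) → Fin 3 → ℂ,
      MvPolynomial.eval (fun ij : Fin (k ^ 2 + r) × Fin 3 => Q ij.1 ij.2) G ≠ 0 →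
      (Fm ℂ d ⊓ ⨅ i, Van (Q i) m : Submodule ℂ (MvPolynomial (Fin 3) ℂ)) = ⊥

/-- NSQ (0.7 h). `k² + r` is not a square.
PROOF. Suppose `n d² = μ²`, `n = k² + r`, `d ≥ 1`. Then `n` is a square `(k + a)²`, `a ≥ 1` (a natural number
which is the square of a rational is a square), `r = a (2k + a)`, and `r ∣ k²`: `k² = c a (2k + a)`, `c ≥ 1`. So
`(k - c a)² = k² - 2 c a k + c² a² = c a² + c² a² = (c² + c) a²`, so `c² + c` is a square (again a
natural number which is the square of a rational), but `c² < c² + c < (c + 1)²`. -/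
def S_NSQ : Prop := ∀ k r d μ : ℕ, 3 ≤ k → 1 ≤ r → r ∣ k ^ 2 → 1 ≤ μ →
  (k ^ 2 + r) * d ^ 2 ≠ μ ^ 2

end Pool.Agent.Helper97.Nag
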