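import Pool.Agent.Helper97.Nag.Defs1
import Pool.Agent.Helper97.Nag.Goals

/-!
PROJECT NAGATA (MP_d3128a_ag), captain helper97 (method: helper97; all points in one cluster: lead;
no base points, all multiplicities at once: helper65, helper35). NAGATA'S CONJECTURE FOR ALL `n ≥ 10`
AND ALL MULTIPLICITIES, and the regular range.

THE PROOF. `F ∋ x` transcendental over `ℚ`, `K = F((q))`, the Tate cubic `g` parametrised by
`phk 3 x = (Th 3 0 1, Th 3 1 1, Th 3 2 1)`. The `b` points of multiplicity `M l` are infinitely near the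
cubic at the parameters `x_l = (l + 1) x`. Filtration of the forms of degree `d` by the powers `g^j`: level
`j` is the space of theta functions of degree `3 (d - 3 j)` (the constants if `3 j = d`), so
`dim (forms of degree d, order ≥ M l at the l-th point) ≤ dim KerV` (S_MIKV, S_LHY1). Give `q` the weight `1`
and `x` the real weight `-rho/9`: every column `(j, residue mod 3 (d - 3j))` of the matrix has exactly one
monomial `x^n` of least weight, the `n` in the window `rho (d/3 - j) < n < (rho + 9) (d/3 - j)`, the same for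
all the rows; its coefficient in the row `(l, α, β)` is `C(n, α) C(j, β) (l+1)^n` (S_BLKX). So the rank of the
matrix is at least the rank of the conditions of multiplicity `M l` at the points `(l + 1, 1)` of the
torus for the monomials `x^n y^j`, `(j, n)` in the triangle `InT`. By Descartes' rule of signs a set `S` of
lattice points is independent if the number `N_s` of its rows `n = X` with at least `s` points is at most
`∑ (M l + 1 - s)^+` for all `s` (S_HOR). In the triangle `N_s ≤ ⌈(rho+9) d/3 - (s-1)(rho+9)²/9⌉`, so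
`(rho+9)² ≥ 9 b` and `(rho+9) d ≤ 3 ∑ M l` suffice (S_TRN); such a `rho ≥ 0` exists if `b ≥ 9` and
`b d² < (∑ M l)²` (S_TRP). The regular range is dual (S_HOD, S_TRR, S_TRQ).

Deliver `Pool/Agent/<Seat>/Nag/XXX.lean`, namespace `Pool.Agent.<Seat>.Nag.XXX`,
`theorem t (h1 : S_AAA) ... : S_XXX`; allowed hypotheses: the goals named, and all `Tate.S_XXX`.
-/

set_option autoImplicit false

noncomputable section

namespace Pool.Agent.Helper97.Nag

open Module Pool.Agent.Helper97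

open Pool.Agent.Helper97.Tate (OO KK SS cf IsTh qe Th iO ser evx evK th Van Fm tst nP Idx Indep IsCub)

/-! ### Combinatorics (helper65, helper35) -/

/-- HOR (helper65). The Descartes criterion.
PROOF. (0) Root counting: for `T : Finset ℤ`, `c : ℤ → ℚ` with
`∑_{X ∈ T} c X * X^α * (l+1)^X = 0` for all `l`, `α < M l`, and `T.card ≤ ∑ M l`: `c = 0` on `T`. (The polynomial
`∑ c X z^(X + A)` has the positive roots `l + 1` with multiplicities `≥ M l`; Mathlib: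
`Polynomial.roots_countP_pos_le_signVariations` in Mathlib/Algebra/Polynomial/RuleOfSigns.lean, and the number of
sign variations is less than the number of terms.) (i) By Tate.S_SPN applied to `q ↦ a q * (l+1)^q.2` and
the linear forms `j - i` (`i < β`) and `α` times `n`: `∑_q a q (∏_{i<β} (q.1 - i)) q.2^α (l+1)^q.2 = 0`
for `α + β < M l`. (ii) `c_β(X) = ∑_{q.2 = X} a q ∏_{i<β} (q.1 - i)` vanishes for all `β`, `X`: strong induction on
`β`; a row with at most `β` points has `a = 0` (Lagrange interpolation in `j`), so `c_β` is supported on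
`lnv S (β+1)`, of cardinality `≤ ∑ (M l - β)`, and (0) applies with `M l - β`. (iii) all `c_β = 0` gives
`a = 0`. -/
def S_HOR : Prop := ∀ (b : ℕ) (M : Fin b → ℕ) (S : Finset (ℤ × ℤ)),
  (∀ s : ℕ, 1 ≤ s → (lnv S s).card ≤ ∑ l, (M l + 1 - s)) → IndepV M S

/-- HOD (helper65, hypothesis S_HOR). The opposite. (Compare Helper1/Nag/COLS.lean, the case `b = 1`.)
PROOF. `μ s = ∑_l (M l + 1 - s)` is decreasing in `s`, `0` for large `s`. Sort the rows meeting `S` by the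
number of points, decreasing: `X_0, X_1, ...`. For every `i` let `c'(i)` be the number of `s ≥ 1` with
`i < μ s`; `i < μ s ≤ |lnv S s|` implies that `X_i` has at least `s` points, so `X_i` has at least `c'(i)`
points. Choose `c'(i)` points of `S` on `X_i`: the set `S'` has `∑_i c'(i) = ∑_{s ≥ 1} μ s = ∑_l C(M l + 1, 2)`
points, and `#{i : c'(i) ≥ s} = μ s`. HOR. -/
def S_HOD : Prop := ∀ (b : ℕ) (M : Fin b → ℕ) (S : Finset (ℤ × ℤ)),
  (∀ s : ℕ, 1 ≤ s → ∑ l, (M l + 1 - s) ≤ (lnv S s).card) →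
    ∃ S' ⊆ S, S'.card = ∑ l, (M l + 1).choose 2 ∧ IndepV M S'

/-- TRN (helper35). The count, empty case.
PROOF. `t = d/3`, `v = t - j`. On the row `n = X` the points have different `v ∈ t - ℕ`, `0 ≤ v ≤ t`, and
`rho v < X < (rho + 9) v` (if `v > 0`), `X = 0` for the apex `v = 0`; a row `X > 0` does not contain the
apex. Let the row have at least `s` points, `σ = s - 1`. If `s ≥ 2` then `X > 0` and
`v_max ≥ v_min + σ`, `v_min > X/(rho+9)`, `v_max ≤ t`, `rho v_max < X`, so `X < (rho+9)(t - σ)` and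
`9 X > σ rho (rho+9)`. The number of integers in the open interval is at most `B = ∑ M l - b σ` if its
length `(rho+9) t - σ (rho+9)²/9 ≤ ∑ M l - b σ` (and `B ≥ 0` if the interval is not empty), and
`B ≤ ∑ (M l - σ)^+`. If `s = 1`: `0 ≤ X < (rho+9) t ≤ ∑ M l` if `d > 0`. If `d = 0` the set `S` is contained in
`{(0,0)}` and `1 ≤ ∑ M l` is needed: hypothesis. -/
def S_TRN : Prop := ∀ (b d : ℕ) (M : Fin b → ℕ) (rho : ℝ), 0 ≤ rho → 9 * (b : ℝ) ≤ (rho + 9) ^ 2 →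
  (rho + 9) * d ≤ 3 * ((∑ l, M l : ℕ) : ℝ) → 1 ≤ ∑ l, M l →
  ∀ S : Finset (ℤ × ℤ), (∀ q ∈ S, ∃ j : ℕ, q.1 = j ∧ InT d rho j q.2) →
    ∀ s : ℕ, 1 ≤ s → (lnv S s).card ≤ ∑ l, (M l + 1 - s)

/-- TRP (helper35). The parameter, empty case.
PROOF. `d = 0`: `rho = b`. `d > 0`: `3 √b < 3 ∑ M l/d` and `9 ≤ 3 √b`: choose an irrational `rho` with
`3 √b < rho + 9 < 3 ∑ M l/d`. `rho (d/3 - j)` is irrational. -/
def S_TRP : Prop := ∀ (b d : ℕ) (M : Fin b → ℕ), 9 ≤ b → b * d ^ 2 < (∑ l, M l) ^ 2 →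
  ∃ rho : ℝ, 0 ≤ rho ∧ 9 * (b : ℝ) ≤ (rho + 9) ^ 2 ∧ (rho + 9) * d ≤ 3 * ((∑ l, M l : ℕ) : ℝ) ∧
    ∀ j : ℕ, 3 * j < d → ∀ n : ℤ, rho * ((d : ℝ) / 3 - j) ≠ n

/-- TRR (helper35). The count, regular case.
PROOF. `t = d/3`, `c = rho + 9`. `S` = all the `(j, n)` with `InT` and `3 j < d`. Let `1 ≤ s` and
`s rho c/9 < X < c (t - s + 1)` or `s rho c/9 ≤ X` (no ties: see below). The `v ∈ t - ℕ` with
`X/c < v ≤ t` and `rho v < X` lie in `S`; there are at least `s` of them: `X/c < t - s + 1`, so if `rho t < X` then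
`t, t - 1, ..., t - s + 1` are such; otherwise the half open interval from `X/c` to `X/rho` of length
`9 X/(rho c) ≥ s` contains at least `s` elements `v ∈ t - ℤ` with `X/c < v ≤ X/rho`, and `rho v ≠ X` by the
hypothesis on `rho`. So `N_s` is at least the number of the integers of the interval from `s rho c/9`
(included) to `c (t - s + 1)` (excluded), whose length is `g(s) = c (t + 1) - s c²/9`. Let `S_0 = 9 (t+1)/c` be the
zero of `g`; `M l + 1 ≤ S_0`. `∑ (M l + 1 - s)^+ ≤ ∑ (M l + 1)(1 - s/S_0)^+ ≤ c (t+1) (1 - s/S_0)^+ = g(s)^+` and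
the left side is an integer, so `N_s ≥ ∑ (M l + 1 - s)^+`. -/
def S_TRR : Prop := ∀ (b d : ℕ) (M : Fin b → ℕ) (rho : ℝ), 1 ≤ d → 0 ≤ rho →
  (∀ l, (rho + 9) * ((M l : ℝ) + 1) ≤ 3 * ((d : ℝ) + 3)) →
  3 * (∑ l, ((M l : ℝ) + 1)) ≤ (rho + 9) * ((d : ℝ) + 3) →
  (∀ j : ℕ, 3 * j < d → ∀ n : ℤ, rho * ((d : ℝ) / 3 - j) ≠ n) →
  ∃ S : Finset (ℤ × ℤ), (∀ q ∈ S, ∃ j : ℕ, q.1 = j ∧ 3 * j < d ∧ InT d rho j q.2) ∧
    ∀ s : ℕ, 1 ≤ s → ∑ l, (M l + 1 - s) ≤ (lnv S s).card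

/-- TRQ (helper35). The parameter, regular case.
PROOF. For all `l`: `3 (d+3)/(M l + 1) > 9` (as `3 M l < d`) and `> 3 ∑ (M i + 1)/(d+3)`. Choose an irrational
`rho > 0` with `3 ∑ (M i + 1)/(d+3) < rho + 9 < 3 (d+3)/(M l + 1)` for all `l` (`b = 0`: no upper bound). -/
def S_TRQ : Prop := ∀ (b d : ℕ) (M : Fin b → ℕ), 1 ≤ d → (∀ l, 3 * M l < d) →
  (∀ l, (M l + 1) * (∑ i, (M i + 1)) < (d + 3) ^ 2) →
  ∃ rho : ℝ, 0 ≤ rho ∧ (∀ l, (rho + 9) * ((M l : ℝ) + 1) ≤ 3 * ((d : ℝ) + 3)) ∧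
    3 * (∑ l, ((M l : ℝ) + 1)) ≤ (rho + 9) * ((d : ℝ) + 3) ∧
    ∀ j : ℕ, 3 * j < d → ∀ n : ℤ, rho * ((d : ℝ) / 3 - j) ≠ n

/-- CBT (0.7 h, hypothesis S_NUMV, proved: Helper28/Nag/NUMV.lean). The columns.
PROOF. For `3 j < d` the open window has length `9 (d/3 - j) = 3 (d - 3 j)`, an integer, and its ends are not
integers, so it contains exactly `3 (d - 3 j)` integers; if `3 j = d` there is one column. The second
statement: `d = 0` directly, `d > 0`: NUMV with `m = 0` (`nu 3 d 0 j = nu1 d j`). -/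
def S_CBT : Prop := ∀ (d : ℕ) (rho : ℝ), (∀ j : ℕ, 3 * j < d → ∀ n : ℤ, rho * ((d : ℝ) / 3 - j) ≠ n) →
  (∃ C : Finset (ℕ × ℤ), (∀ c, c ∈ C ↔ InT d rho c.1 c.2) ∧
    C.card = ∑ j ∈ Finset.range (d / 3 + 1), nu1 d j) ∧
  ∑ j ∈ Finset.range (d / 3 + 1), nu1 d j = (d + 2).choose 2

/-! ### The matrix -/

/-- GENX (0.3 h). PROOF. `F = RatFunc ℚ` (or the field of fractions of `LaurentPolynomial ℚ`),
`x = X`. -/
def S_GENX : Prop := ∃ (F : Type) (_ : Field F) (_ : CharZero F) (x : Fˣ), GenX x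

/-- ENTX (1 h, hypothesis Tate.S_EVC). The entries. (Adapt Helper23/Nag/ENTK.lean, the entries with
several variables; here one variable and the rational number `u`.)
PROOF. `ιG : ℚ[ℤ] → F`, `n ↦ x^n`, injective by GenX; `f : (ℚ[ℤ])⟦q⟧ → F⟦q⟧ → KK F` (`PowerSeries.map ιG`, then
`algebraMap`), injective. By S_EVC the coefficient of `q^N` of the coefficient of `s^α` of `evx x' (Th κ ρ 1)` is
the sum of `a * x'^n * C(n, α)` over the monomials `a T^n` of the coefficient of `q^N` of `Th κ ρ 1`, and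
`x'^n = u^n x^n`; multiply by `C(j, β)`. The monomials of `Th κ ρ 1` and `ThX κ ρ` are the same. Case
`3 j = d`: both are `1` (`C(0, α) = 0` for `α > 0`). -/
def S_ENTX : Prop := ∀ (F : Type) [Field F] [CharZero F] (d : ℕ) (x : Fˣ), GenX x →
  ∃ f : PowerSeries (AddMonoidAlgebra ℚ ℤ) →+* KK F, Function.Injective f ∧
    ∀ (u : ℚ) (x' : Fˣ), 0 < u → (x' : F) = (u : F) * (x : F) → ∀ (α β j ρ : ℕ),
      f (ENTX d u α β j ρ) = (j.choose β : KK F) * PowerSeries.coeff α (SEX d x' j ρ)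

/-- BLKX (2 h, hypotheses S_DETR, S_ENTX). Independence of the columns. (Compare Helper86/Nag/BLKK.lean.)
PROOF. Apply DETR with `G = ℤ`, `bw n = -rho/9 * n`, `I = Unit`, rows `(l, α, β)`, `α + β < M l`, columns
`c = (j, n) ∈ C`, entries `ENTX d (l+1) α β j (n mod κ)`, `κ = 3 (d - 3 j) = 9 v`, `v = d/3 - j`. The monomials of
`ThX κ ρ`, `ρ = n mod κ`, are the `(N, n') = (qe κ ρ a, ρ + κ a)`, with coefficient `1` (for given `N`
different `a` give different `n'`; `a ∈ Icc (-N) (N+1)` is automatic for `0 ≤ ρ < κ` if `qe κ ρ a = N`, see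
Tate.S_THC; `qe ≥ 0`), and `2 κ N = n'² - κ n' - ρ² + κ ρ`, so the weight is
`N - rho n'/9 = (n' - κ/2 - rho v)²/(2κ) + const` (`κ rho/9 = rho v`), `const` depending only on `(j, ρ)`. The
minimum over the `n' ≡ n mod κ` is attained only for `n' = n`, because `|n - κ/2 - rho v| < κ/2` (window) and
for `n' = n + κ b`, `b ≠ 0`, `|n' - κ/2 - rho v| > κ/2`. So `om c` = this weight, `Pn c = qe κ ρ a`, `Pg c = n`,
and the monomials of ENTX are among those of ThX (`ta = 0`), with the coefficient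
`v ρ c = C(n, α) C(j, β) (l+1)^n` at the extreme one. If `3 j = d`: `FX = 1`, `om = 0`, `Pn = 0`, `Pg = 0 = n`,
`C(0, α) C(j, β) (l+1)^0`. The last hypothesis of DETR is `IndepV M` of the image of `C`
(`Ring.choose (j : ℤ) β = C(j, β)`; `c ↦ ((c.1 : ℤ), c.2)` is injective). -/
def S_BLKX : Prop := ∀ (F : Type) [Field F] [CharZero F] (d b : ℕ) (M : Fin b → ℕ) (rho : ℝ) (x : Fˣ),
  GenX x → ∀ x' : Fin b → Fˣ, (∀ l, ((x' l : Fˣ) : F) = (((l : ℕ) : F) + 1) * (x : F)) →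
  ∀ C : Finset (ℕ × ℤ), (∀ c ∈ C, InT d rho c.1 c.2) →
    IndepV M (C.image fun c => ((c.1 : ℤ), c.2)) →
  ∀ a : ℕ × ℤ → KK F, (∀ (l : Fin b) (α β : ℕ), α + β < M l →
    ∑ c ∈ C, a c * ((c.1.choose β : KK F) *
      PowerSeries.coeff α (SEX d (x' l) c.1 (c.2 % ((3 * (d - 3 * c.1) : ℕ) : ℤ)).toNat)) = 0) →
    ∀ c ∈ C, a c = 0

/-! ### Plane geometry -/

/-- LHY1 (0.7 h, hypothesis S_LEVK, proved modulo others: Helper39/Nag/LEVK.lean). The levels.
(Compare Helper78/Nag/LHYK.lean.)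
PROOF. Level `3 j < d`: S_LEVK with `k = 3`, `ι = Fin 0`, `n = 0`, `e = d - 3 j`, `κ = 3 (d - 3 j)`; the products
over `Fin 0` are `1`. Level `3 j = d`: `z` is a constant polynomial. -/
def S_LHY1 : Prop := ∀ (F : Type) [Field F] [CharZero F] (g : MvPolynomial (Fin 3) (OO F)),
  IsCrv 3 g → ∀ (d b : ℕ) (x : Fin b → Fˣ),
    LevHypV (crvK g) (fun i : Fin 0 => (i.elim0 : Fin 3 → KK F)) (fun i => i.elim0) d 3 (nu1 d)
      (fun l => phk 3 (x l)) (fun _ => 1) (fun _ => 1) (fun l j ρ => SEX d (x l) j ρ)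

/-- DRPV (0.5 h, hypotheses Tate.S_VAA, S_VAB). As S_DRPK with multiplicities `μ i`. (Adapt
Helper18/Nag/DRPK.lean; there `Nonempty ι` was used only for `g ≠ 0`.) -/
def S_DRPV : Prop := ∀ (K : Type) [Field K] (ι : Type) [Finite ι]
  (g : MvPolynomial (Fin 3) K) (P : ι → Fin 3 → K) (μ : ι → ℕ) (d k : ℕ), 1 ≤ k → g ≠ 0 →
  g.IsHomogeneous k → (∀ i, g ∈ Van (P i) 1 ∧ g ∉ Van (P i) 2) →
  (∀ (j i : ℕ) (z : MvPolynomial (Fin 3) K), z ∈ WKV P μ d k (j + i) →
    g ^ i * z ∈ WKV P μ d k j) ∧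
  (∀ (j : ℕ) (z : MvPolynomial (Fin 3) K), g * z ∈ WKV P μ d k j → z ∈ WKV P μ d k (j + 1)) ∧
  (∀ j, d < k * j → WKV P μ d k j = ⊥) ∧ ∀ j, FiniteDimensional K (WKV P μ d k j)

/-- MIKV (1 h, hypotheses S_GRKD, S_DRPV, Tate.S_EXP, S_JJI, S_VAB). THE MAIN INEQUALITY, general
multiplicities `μ i` at the base points and `M l` at the points near the curve. (Adapt
Helper15/Nag/MIK.lean: `m` becomes `μ i`, `M` becomes `M l`; `Nonempty ι` is replaced by `g ≠ 0`; in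
`U = Fin b → Fin Mmax → Fin Mmax → K` or `∀ l, Fin (M l) → Fin (M l) → K` the coefficient is put to `0` if
`α + β ≥ M l`.) -/
def S_MIKV : Prop := ∀ (K : Type) [Field K] [Infinite K] (ι : Type) [Finite ι]
  (g : MvPolynomial (Fin 3) K) (P : ι → Fin 3 → K) (μ : ι → ℕ) (d k b : ℕ) (M : Fin b → ℕ)
  (ν : ℕ → ℕ)
  (h : Fin b → Fin 3 → PowerSeries K) (v Θ B : Fin b → PowerSeries K) (Y : Fin b → K)
  (S : Fin b → ℕ → ℕ → PowerSeries K), 1 ≤ k → g ≠ 0 → g.IsHomogeneous k →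
  (∀ i, g ∈ Van (P i) 1 ∧ g ∉ Van (P i) 2) →
  (∀ i, MvPolynomial.aeval (h i) g = 0) →
  (∀ i, MvPolynomial.aeval (h i) (MvPolynomial.pderiv 0 g) * v i = PowerSeries.C (Y i) * Θ i) →
  (∀ i, PowerSeries.constantCoeff (B i) ≠ 0) → LevHypV g P μ d k ν h Θ B S →
  ∃ P' : Fin b → Fin 3 → K,
    finrank K (Fm K d ⊓ (⨅ i, Van (P i) (μ i)) ⊓ ⨅ l, Van (P' l) (M l) :
      Submodule K (MvPolynomial (Fin 3) K)) ≤ finrank K (KerV M (d / k + 1) ν Y S)

/-- DIMV (0.4 h). Rank and kernel. (Adapt Helper69/Nag/DIMK.lean: `M` becomes `M i`.) -/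
def S_DIMV : Prop := ∀ (K : Type) [Field K] (b lam : ℕ) (M : Fin b → ℕ) (ν : ℕ → ℕ) (Y : Fin b → K)
  (S : Fin b → ℕ → ℕ → PowerSeries K) (C : Finset (ℕ × ℕ)), (∀ c ∈ C, c.1 < lam ∧ c.2 < ν c.1) →
  (∀ a : ℕ × ℕ → K, (∀ (i : Fin b) (α β : ℕ), α + β < M i →
    ∑ c ∈ C, a c * (Y i ^ c.1 * (c.1.choose β : K) * PowerSeries.coeff α (S i c.1 c.2)) = 0) →
      ∀ c ∈ C, a c = 0) →
  finrank K (KerV M lam ν Y S) + C.card ≤ ∑ j ∈ Finset.range lam, ν j

end Pool.Agent.Helper97.Nag
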