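import Pool.Agent.Helper97.Nag.Goals2
import Pool.Agent.Helper97.Tate.Klev
import Pool.Agent.Helper18.ShghGen

/-!
Assembly of the project NAGATA from the goals.
-/

set_option autoImplicit false

noncomputable section

namespace Pool.Agent.Helper97.Nag

open Module Pool.Agent.Helper97

open Pool.Agent.Helper97.Tate (OO KK SS cf IsTh qe Th iO ser evx evK th Van Fm tst nP Idx Indep IsCub)

/-- the goals used by the assembly -/
structure NGoals : Prop where
  crv : S_CRV3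
  cuv : S_CUVK
  lhy : S_LHY1
  mik : S_MIKV
  dim : S_DIMV
  gen : S_GENX
  blk : S_BLKX
  hor : S_HOR
  hod : S_HOD
  trn : S_TRN
  trp : S_TRP
  trs : S_TRS
  trr : S_TRR
  trq : S_TRQ
  cbt : S_CBT
  trk : Tate.S_TRK

/-- the residue of the exponent determines the column -/
theorem colT_inj {d j : ℕ} {rho : ℝ} {n n' : ℤ} (h : InT d rho j n) (h' : InT d rho j n')
    (he : (n % ((3 * (d - 3 * j) : ℕ) : ℤ)).toNat = (n' % ((3 * (d - 3 * j) : ℕ) : ℤ)).toNat) :
    n = n' := by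
  rcases lt_or_ge (3 * j) d with hj | hj
  · have h1 : rho * ((d : ℝ) / 3 - j) < n ∧ (n : ℝ) < (rho + 9) * ((d : ℝ) / 3 - j) := by
      rcases h with h | h
      · exact h.2
      · omega
    have h2 : rho * ((d : ℝ) / 3 - j) < n' ∧ (n' : ℝ) < (rho + 9) * ((d : ℝ) / 3 - j) := by
      rcases h' with h | h
      · exact h.2
      · omega
    set κ : ℕ := 3 * (d - 3 * j) with hκ
    have hk : (κ : ℝ) = 9 * ((d : ℝ) / 3 - j) := by
      rw [hκ]
      push_cast [Nat.cast_sub hj.le]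
      ring
    have hkz : (0 : ℤ) < κ := by
      have : 0 < κ := by omega
      exact_mod_cast this
    have e1 : n % (κ : ℤ) = n' % (κ : ℤ) := by
      have p1 := Int.emod_nonneg n hkz.ne'
      have p2 := Int.emod_nonneg n' hkz.ne'
      omega
    have e2 : ((n - n' : ℤ) : ℝ) < ((κ : ℤ) : ℝ) := by push_cast; linarith [h1.2, h2.1]
    have e3 : ((n' - n : ℤ) : ℝ) < ((κ : ℤ) : ℝ) := by push_cast; linarith [h1.1, h2.2]
    have e4 : n - n' < κ := by exact_mod_cast e2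
    have e5 : n' - n < κ := by exact_mod_cast e3
    have e6 : (κ : ℤ) ∣ n - n' := Int.ModEq.dvd (show n' ≡ n [ZMOD κ] from e1.symm)
    obtain ⟨c, hc⟩ := e6
    have e7 : c < 1 := by
      by_contra hcon
      have : (κ : ℤ) * 1 ≤ κ * c := mul_le_mul_of_nonneg_left (by omega) hkz.le
      omega
    have e8 : -1 < c := by
      by_contra hcon
      have : (κ : ℤ) * c ≤ κ * (-1) := mul_le_mul_of_nonneg_left (by omega) hkz.le
      omega
    have e9 : c = 0 := by omega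
    rw [e9, mul_zero] at hc
    omega
  · have h0 : ∀ {n : ℤ}, InT d rho j n → n = 0 := by
      intro n hh
      rcases hh with ⟨h1, -⟩ | ⟨-, h3⟩
      · omega
      · exact h3
    rw [h0 h, h0 h']

theorem inT_le {d j : ℕ} {rho : ℝ} {n : ℤ} (h : InT d rho j n) : 3 * j ≤ d := by
  rcases h with ⟨h1, -⟩ | ⟨h1, -⟩ <;> omega

/-- THE MAIN INEQUALITY -/
theorem main1 (G : NGoals) (d b : ℕ) (M : Fin b → ℕ) (rho : ℝ)
    (C : Finset (ℕ × ℤ)) (hC : ∀ c ∈ C, InT d rho c.1 c.2)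
    (hI : IndepV M (C.image fun c => ((c.1 : ℤ), c.2))) :
    ∃ (K : Type) (_ : Field K) (_ : CharZero K) (P : Fin b → Fin 3 → K),
      finrank K (Fm K d ⊓ ⨅ l, Van (P l) (M l) : Submodule K (MvPolynomial (Fin 3) K)) + C.card ≤
        ∑ j ∈ Finset.range (d / 3 + 1), nu1 d j := by
  obtain ⟨F, _, _, x, hx⟩ := G.gen
  obtain ⟨g, hg⟩ := G.crv F
  have : CharZero (KK F) := Tate.charZero_KK F
  have : Infinite (KK F) := Infinite.of_injective _ (Nat.cast_injective (R := KK F))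
  have hne : ∀ l : Fin b, (((l : ℕ) : F) + 1) * (x : F) ≠ 0 := by
    intro l
    apply mul_ne_zero _ (Units.ne_zero x)
    exact_mod_cast Nat.succ_ne_zero (l : ℕ)
  let x' : Fin b → Fˣ := fun l => Units.mk0 _ (hne l)
  have hx' : ∀ l, ((x' l : Fˣ) : F) = (((l : ℕ) : F) + 1) * (x : F) := fun l => rfl
  have hLH := G.lhy F g hg d b x'
  have hu : ∀ l, PowerSeries.constantCoeff (MvPolynomial.aeval (phk 3 (x' l))
      (MvPolynomial.pderiv 0 (crvK g))) ≠ 0 := fun l => (G.cuv F 3 g le_rfl hg (x' l)).2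
  have hg0 : crvK g ≠ 0 := by
    intro h0
    have := (G.cuv F 3 g le_rfl hg x).2
    rw [h0, map_zero, map_zero, map_zero] at this
    exact this rfl
  obtain ⟨P', hP'⟩ := G.mik (KK F) (Fin 0) (crvK g) (fun i : Fin 0 => (i.elim0 : Fin 3 → KK F))
    (fun i => i.elim0) d 3 b M (nu1 d) (fun l => phk 3 (x' l))
    (fun l => (MvPolynomial.aeval (phk 3 (x' l)) (MvPolynomial.pderiv 0 (crvK g)))⁻¹)
    (fun _ => 1) (fun _ => 1) (fun _ => 1) (fun l j ρ => SEX d (x' l) j ρ) (by norm_num) hg0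
    (hg.1.map _) (fun i => i.elim0) (fun l => (G.cuv F 3 g le_rfl hg (x' l)).1)
    (by
      intro l
      rw [PowerSeries.mul_inv_cancel _ (hu l), map_one, one_mul])
    (by
      intro l
      rw [map_one]
      exact one_ne_zero)
    hLH
  have hPe : (Fm (KK F) d ⊓ (⨅ i : Fin 0, Van (i.elim0 : Fin 3 → KK F) (i.elim0)) ⊓
      ⨅ l, Van (P' l) (M l) : Submodule (KK F) (MvPolynomial (Fin 3) (KK F))) =
      Fm (KK F) d ⊓ ⨅ l, Van (P' l) (M l) := by
    rw [iInf_of_empty, inf_top_eq]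
  refine ⟨KK F, inferInstance, inferInstance, P', ?_⟩
  -- the columns
  set φ : ℕ × ℤ → ℕ × ℕ := fun c => (c.1, (c.2 % ((3 * (d - 3 * c.1) : ℕ) : ℤ)).toNat) with hφ
  have hinj : Set.InjOn φ (C : Set (ℕ × ℤ)) := by
    rintro ⟨j, n⟩ hc ⟨j', n'⟩ hc' h
    simp only [hφ, Prod.mk.injEq] at h
    obtain ⟨rfl, h2⟩ := h
    have h3 : n = n' := colT_inj (hC _ hc) (hC _ hc') h2
    rw [h3]
  have hcardC : (C.image φ).card = C.card := Finset.card_image_of_injOn hinj
  have hdim := G.dim (KK F) b (d / 3 + 1) M (nu1 d) (fun _ => 1)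
    (fun l j ρ => SEX d (x' l) j ρ) (C.image φ)
    (by
      intro c hc
      obtain ⟨⟨j, n⟩, hc1, rfl⟩ := Finset.mem_image.1 hc
      have hB := hC _ hc1
      have hj := inT_le hB
      simp only [hφ]
      simp only at hj
      constructor
      · omega
      · rcases hB with ⟨h1, -⟩ | ⟨h1, h3⟩
        · simp only at h1
          have hne : 3 * j ≠ d := by omega
          rw [nu1, if_neg hne]
          have hkz : (0 : ℤ) < ((3 * (d - 3 * j) : ℕ) : ℤ) := by
            have : 0 < 3 * (d - 3 * j) := by omega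
            exact_mod_cast this
          have p1 := Int.emod_nonneg n hkz.ne'
          have p2 := Int.emod_lt_of_pos n hkz
          omega
        · simp only at h1 h3
          rw [nu1, if_pos h1, h3]
          simp)
    (by
      intro a ha
      have hB := G.blk F d b M rho x hx x' hx' C hC hI
        (fun c => a (φ c)) (by
          intro l α β hαβ
          have h1 := ha l α β hαβ
          rw [Finset.sum_image hinj] at h1
          simpa only [one_pow, one_mul] using h1)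
      intro c hc
      obtain ⟨c', hc', rfl⟩ := Finset.mem_image.1 hc
      exact hB c' hc')
  rw [hcardC] at hdim
  have hP2 : finrank (KK F) (Fm (KK F) d ⊓ ⨅ l, Van (P' l) (M l) :
      Submodule (KK F) (MvPolynomial (Fin 3) (KK F))) ≤
      finrank (KK F) (KerV M (d / 3 + 1) (nu1 d) (fun _ => (1 : KK F))
        (fun l j ρ => SEX d (x' l) j ρ)) := by
    rw [← hPe]
    exact hP'
  exact (Nat.add_le_add_right hP2 _).trans hdim

/-- transfer to the complex numbers -/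
theorem transC (hTRK : Tate.S_TRK) {n d N : ℕ} {m : Fin n → ℕ}
    (h : ∃ (K : Type) (_ : Field K) (_ : CharZero K) (P : Fin n → Fin 3 → K),
      finrank K (Fm K d ⊓ ⨅ l, Van (P l) (m l) : Submodule K (MvPolynomial (Fin 3) K)) ≤ N) :
    ∃ G : MvPolynomial (Fin n × Fin 3) ℂ, G ≠ 0 ∧ ∀ P : Fin n → Fin 3 → ℂ,
      MvPolynomial.eval (fun ij : Fin n × Fin 3 => P ij.1 ij.2) G ≠ 0 →
      finrank ℂ (↥(MvPolynomial.homogeneousSubmodule (Fin 3) ℂ d ⊓
        ⨅ i : Fin n, Submodule.restrictScalars ℂ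
          ((Ideal.span {g : MvPolynomial (Fin 3) ℂ |
              g.IsHomogeneous 1 ∧ MvPolynomial.eval (P i) g = 0}) ^ (m i)
            : Ideal (MvPolynomial (Fin 3) ℂ)))) ≤ N := by
  obtain ⟨K, _, _, P, hP⟩ := h
  obtain ⟨G, hG0, hG⟩ := hTRK K n d N m P hP
  refine ⟨G, hG0, fun Q hQ => ?_⟩
  have h1 := hG Q hQ
  have h2 : Fm ℂ d ⊓ ⨅ i, Van (Q i) (m i) ≤
      MvPolynomial.homogeneousSubmodule (Fin 3) ℂ d := by
    intro z hz
    have h3 := (Submodule.mem_inf.1 hz).1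
    rw [Tate.mem_Fm (by positivity)] at h3
    rw [MvPolynomial.mem_homogeneousSubmodule]
    simpa using h3
  have h4 : FiniteDimensional ℂ (Fm ℂ d ⊓ ⨅ i, Van (Q i) (m i) :
      Submodule ℂ (MvPolynomial (Fin 3) ℂ)) := by
    have h5 : FiniteDimensional ℂ (MvPolynomial.homogeneousSubmodule (Fin 3) ℂ d) :=
      Module.Finite.iff_fg.2 (MvPolynomial.homogeneousSubmodule_fg (σ := Fin 3) (R := ℂ) d)
    exact Submodule.finiteDimensional_of_le h2
  have h6 : (MvPolynomial.homogeneousSubmodule (Fin 3) ℂ d ⊓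
        ⨅ i : Fin n, Submodule.restrictScalars ℂ
          ((Ideal.span {g : MvPolynomial (Fin 3) ℂ |
              g.IsHomogeneous 1 ∧ MvPolynomial.eval (Q i) g = 0}) ^ (m i)
            : Ideal (MvPolynomial (Fin 3) ℂ))) ≤ Fm ℂ d ⊓ ⨅ i, Van (Q i) (m i) := by
    intro z hz
    obtain ⟨h1, h2⟩ := Submodule.mem_inf.1 hz
    rw [Submodule.mem_iInf] at h2
    refine Submodule.mem_inf.2 ⟨?_, ?_⟩
    · rw [Tate.mem_Fm (by positivity)]
      simpa using h1
    · rw [Submodule.mem_iInf]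
      intro i
      have h3 := Ideal.pow_right_mono (Helper18.Shgh.LI_le_mI (Q i)) (m i) (h2 i)
      exact Helper18.Shgh.mem_mI_pow.1 h3
  exact (Submodule.finrank_mono h6).trans h1

/-- the empty side: Nagata's inequality for all multiplicities -/
theorem emptyC (G : NGoals) (n d : ℕ) (m : Fin n → ℕ) (hn : 9 ≤ n)
    (h : n * d ^ 2 < (∑ i, m i) ^ 2) :
    ∃ G : MvPolynomial (Fin n × Fin 3) ℂ, G ≠ 0 ∧ ∀ P : Fin n → Fin 3 → ℂ,
      MvPolynomial.eval (fun ij : Fin n × Fin 3 => P ij.1 ij.2) G ≠ 0 →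
      finrank ℂ (↥(MvPolynomial.homogeneousSubmodule (Fin 3) ℂ d ⊓
        ⨅ i : Fin n, Submodule.restrictScalars ℂ
          ((Ideal.span {g : MvPolynomial (Fin 3) ℂ |
              g.IsHomogeneous 1 ∧ MvPolynomial.eval (P i) g = 0}) ^ (m i)
            : Ideal (MvPolynomial (Fin 3) ℂ)))) = 0 := by
  obtain ⟨rho, h1, h2, h3, h4⟩ := G.trp n d m hn h
  obtain ⟨⟨C, hC, hcard⟩, -⟩ := G.cbt d rho h4
  have hpos : 1 ≤ ∑ l, m l := by
    by_contra hcon
    have h0 : ∑ l, m l = 0 := by omega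
    rw [h0] at h
    simp at h
  have hI : IndepV m (C.image fun c => ((c.1 : ℤ), c.2)) := by
    apply G.hor n m
    apply G.trn n d m rho h1 h2 h3 hpos
    intro q hq
    obtain ⟨c, hc, rfl⟩ := Finset.mem_image.1 hq
    exact ⟨c.1, rfl, (hC c).1 hc⟩
  obtain ⟨K, i1, i2, P, hP⟩ := main1 G d n m rho C (fun c hc => (hC c).1 hc) hI
  obtain ⟨G', hG0, hG⟩ := transC (n := n) (d := d) (m := m) (N := 0) G.trk ⟨K, i1, i2, P, by omega⟩
  exact ⟨G', hG0, fun Q hQ => Nat.le_zero.1 (hG Q hQ)⟩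

/-- the closed case -/
theorem closedC (G : NGoals) (n k d : ℕ) (m : Fin n → ℕ) (hk : 4 ≤ k) (hn : n = k ^ 2)
    (h : k * d = ∑ i, m i) (hpos : 1 ≤ ∑ i, m i) :
    ∃ G : MvPolynomial (Fin n × Fin 3) ℂ, G ≠ 0 ∧ ∀ P : Fin n → Fin 3 → ℂ,
      MvPolynomial.eval (fun ij : Fin n × Fin 3 => P ij.1 ij.2) G ≠ 0 →
      finrank ℂ (↥(MvPolynomial.homogeneousSubmodule (Fin 3) ℂ d ⊓
        ⨅ i : Fin n, Submodule.restrictScalars ℂ
          ((Ideal.span {g : MvPolynomial (Fin 3) ℂ |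
              g.IsHomogeneous 1 ∧ MvPolynomial.eval (P i) g = 0}) ^ (m i)
            : Ideal (MvPolynomial (Fin 3) ℂ)))) = 0 := by
  obtain ⟨rho, -, h4, h5⟩ := G.trs n k d m hk hn h hpos
  obtain ⟨⟨C, hC, hcard⟩, -⟩ := G.cbt d rho h4
  have hI : IndepV m (C.image fun c => ((c.1 : ℤ), c.2)) := by
    apply G.hor n m
    apply h5
    intro q hq
    obtain ⟨c, hc, rfl⟩ := Finset.mem_image.1 hq
    exact ⟨c.1, rfl, (hC c).1 hc⟩
  obtain ⟨K, i1, i2, P, hP⟩ := main1 G d n m rho C (fun c hc => (hC c).1 hc) hI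
  obtain ⟨G', hG0, hG⟩ := transC (n := n) (d := d) (m := m) (N := 0) G.trk ⟨K, i1, i2, P, by omega⟩
  exact ⟨G', hG0, fun Q hQ => Nat.le_zero.1 (hG Q hQ)⟩

/-- NAGATA'S CONJECTURE -/
theorem nagataC (G : NGoals) (n d : ℕ) (m : Fin n → ℕ) (hn : 10 ≤ n)
    (h : n * d ^ 2 ≤ (∑ i, m i) ^ 2) (hpos : 1 ≤ ∑ i, m i) :
    ∃ G : MvPolynomial (Fin n × Fin 3) ℂ, G ≠ 0 ∧ ∀ P : Fin n → Fin 3 → ℂ,
      MvPolynomial.eval (fun ij : Fin n × Fin 3 => P ij.1 ij.2) G ≠ 0 →
      finrank ℂ (↥(MvPolynomial.homogeneousSubmodule (Fin 3) ℂ d ⊓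
        ⨅ i : Fin n, Submodule.restrictScalars ℂ
          ((Ideal.span {g : MvPolynomial (Fin 3) ℂ |
              g.IsHomogeneous 1 ∧ MvPolynomial.eval (P i) g = 0}) ^ (m i)
            : Ideal (MvPolynomial (Fin 3) ℂ)))) = 0 := by
  rcases lt_or_eq_of_le h with h | h
  · exact emptyC G n d m (by omega) h
  · have hd : d ≠ 0 := by
      rintro rfl
      have : 1 ≤ (∑ i, m i) ^ 2 := Nat.one_le_pow _ _ hpos
      simp only [ne_eq, OfNat.ofNat_ne_zero, not_false_eq_true, zero_pow, mul_zero] at h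
      omega
    have hdvd : d ∣ ∑ i, m i := by
      have : d ^ 2 ∣ (∑ i, m i) ^ 2 := ⟨n, by rw [← h]; ring⟩
      exact (Nat.pow_dvd_pow_iff (by norm_num)).1 this
    obtain ⟨k, hk⟩ := hdvd
    have hnk : n = k ^ 2 := by
      rw [hk] at h
      have h2 : n * d ^ 2 = k ^ 2 * d ^ 2 := by rw [h]; ring
      exact Nat.eq_of_mul_eq_mul_right (by positivity) h2
    have hk4 : 4 ≤ k := by
      by_contra hcon
      have : k ≤ 3 := by omega
      have : k ^ 2 ≤ 3 ^ 2 := Nat.pow_le_pow_left this 2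
      omega
    exact closedC G n k d m hk4 hnk (by rw [hk]; ring) hpos

/-- the regular side -/
theorem regC (G : NGoals) (n d : ℕ) (m : Fin n → ℕ) (hd : 1 ≤ d) (hm : ∀ i, 3 * m i < d)
    (h : ∀ i, (m i + 1) * (∑ l, (m l + 1)) < (d + 3) ^ 2) :
    ∃ G : MvPolynomial (Fin n × Fin 3) ℂ, G ≠ 0 ∧ ∀ P : Fin n → Fin 3 → ℂ,
      MvPolynomial.eval (fun ij : Fin n × Fin 3 => P ij.1 ij.2) G ≠ 0 →
      finrank ℂ (↥(MvPolynomial.homogeneousSubmodule (Fin 3) ℂ d ⊓
        ⨅ i : Fin n, Submodule.restrictScalars ℂ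
          ((Ideal.span {g : MvPolynomial (Fin 3) ℂ |
              g.IsHomogeneous 1 ∧ MvPolynomial.eval (P i) g = 0}) ^ (m i)
            : Ideal (MvPolynomial (Fin 3) ℂ)))) + ∑ i, (m i + 1).choose 2 ≤ (d + 2).choose 2 := by
  obtain ⟨rho, h1, h2, h3, h4⟩ := G.trq n d m hd hm h
  obtain ⟨-, hsum⟩ := G.cbt d rho h4
  obtain ⟨S, hS, hcnt⟩ := G.trr n d m rho hd h1 h2 h3 h4
  obtain ⟨S', hS', hcard, hI⟩ := G.hod n m S hcnt
  set C : Finset (ℕ × ℤ) := S'.image fun q => (q.1.toNat, q.2) with hCdef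
  have hback : ∀ q ∈ S', ((q.1.toNat : ℤ), q.2) = q := by
    intro q hq
    obtain ⟨j, hj, -⟩ := hS q (hS' hq)
    have : ((q.1.toNat : ℤ)) = q.1 := by rw [hj]; simp
    rw [this]
  have hC : ∀ c ∈ C, InT d rho c.1 c.2 := by
    intro c hc
    obtain ⟨q, hq, rfl⟩ := Finset.mem_image.1 hc
    obtain ⟨j, hj, -, hj3⟩ := hS q (hS' hq)
    have e : q.1.toNat = j := by rw [hj]; simp
    simp only [e]
    exact hj3
  have hCS : (C.image fun c => ((c.1 : ℤ), c.2)) = S' := by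
    rw [hCdef, Finset.image_image]
    ext q
    rw [Finset.mem_image]
    constructor
    · rintro ⟨q', hq', rfl⟩
      simp only [Function.comp]
      rw [hback q' hq']
      exact hq'
    · intro hq
      exact ⟨q, hq, hback q hq⟩
  have hCc : C.card = S'.card := by
    rw [hCdef]
    apply Finset.card_image_of_injOn
    intro q hq q' hq' hqq
    simp only [Prod.mk.injEq] at hqq
    have e1 := hback q hq
    have e2 := hback q' hq'
    rw [← e1, ← e2, hqq.1, hqq.2]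
  obtain ⟨K, i1, i2, P, hP⟩ := main1 G d n m rho C hC (by rw [hCS]; exact hI)
  rw [hsum, hCc, hcard] at hP
  obtain ⟨G', hG0, hG⟩ := transC (n := n) (d := d) (m := m) (N := (d + 2).choose 2 - ∑ l, (m l + 1).choose 2) G.trk
    ⟨K, i1, i2, P, by omega⟩
  refine ⟨G', hG0, fun Q hQ => ?_⟩
  have h5 := hG Q hQ
  omega

end Pool.Agent.Helper97.Nag
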