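import Pool.Agent.Helper97.Tate.All
import Pool.Agent.Helper97.Nag.Main1
import Pool.Agent.Helper1.Nag.CRV3
import Pool.Agent.Helper12.Nag.GENX
import Pool.Agent.Helper15.Nag.LHY1
import Pool.Agent.Helper24.Nag.DVK
import Pool.Agent.Helper28.Nag.NUMV
import Pool.Agent.Helper32.Nag.INDK
import Pool.Agent.Helper35.Nag.TRN
import Pool.Agent.Helper35.Nag.TRP
import Pool.Agent.Helper35.Nag.TRQ
import Pool.Agent.Helper36.Nag.ENTX
import Pool.Agent.Helper39.Nag.LEVK
import Pool.Agent.Helper40.Nag.HOD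
import Pool.Agent.Helper45.Nag.MIKV
import Pool.Agent.Helper51.Nag.GRKD
import Pool.Agent.Helper51.Nag.KRNK
import Pool.Agent.Helper62.Nag.DETR
import Pool.Agent.Helper65.Nag.HOR
import Pool.Agent.Helper66.Nag.DIMV
import Pool.Agent.Helper72.Nag.TRS
import Pool.Agent.Helper78.Nag.CUVK
import Pool.Agent.Helper8.Nag.DRPV
import Pool.Agent.Helper80.Nag.TRR
import Pool.Agent.Helper89.Nag.REDK
import Pool.Agent.Helper90.Nag.BLKX
import Pool.Agent.Helper96.Nag.PRDR
import Pool.Agent.Helper98.Nag.CBT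

/-!
Assembly of the goals of the project NAGATA.
-/

set_option autoImplicit false

noncomputable section

namespace Pool.Agent.Helper97.Nag

open Pool.Agent.Helper97.Tate (all_THC all_EVC all_EVI all_THZ all_DIV all_MUL all_LIN all_BAS all_EVU
  all_VAB all_VAA all_EXP all_JJI all_SEM all_SPN all_TRK all_CUB)

theorem all_DVK : S_DVK := Pool.Agent.Helper24.Nag.DVK.t all_DIV all_THZ
theorem all_INDK : S_INDK := Pool.Agent.Helper32.Nag.INDK.t
theorem all_REDK : S_REDK := Pool.Agent.Helper89.Nag.REDK.t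
theorem all_CUVK : S_CUVK := Pool.Agent.Helper78.Nag.CUVK.t all_THC all_EVC
theorem all_KRNK : S_KRNK :=
  Pool.Agent.Helper51.Nag.KRNK.t all_EVC all_EVI all_THC all_INDK all_REDK all_CUVK
theorem all_LEVK : S_LEVK :=
  Pool.Agent.Helper39.Nag.LEVK.t all_DVK all_KRNK all_MUL all_LIN all_THC all_BAS all_EVC all_EVU
    all_THZ all_VAB
theorem all_LHY1 : S_LHY1 := Pool.Agent.Helper15.Nag.LHY1.t all_LEVK
theorem all_GRKD : S_GRKD := Pool.Agent.Helper51.Nag.GRKD.t all_SEM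
theorem all_DRPV : S_DRPV := Pool.Agent.Helper8.Nag.DRPV.t all_VAA
theorem all_MIKV : S_MIKV :=
  Pool.Agent.Helper45.Nag.MIKV.t all_GRKD all_EXP all_JJI all_DRPV all_VAB
theorem all_DIMV : S_DIMV := Pool.Agent.Helper66.Nag.DIMV.t
theorem all_PRDR : S_PRDR := Pool.Agent.Helper96.Nag.PRDR.t
theorem all_DETR : S_DETR := Pool.Agent.Helper62.Nag.DETR.t all_PRDR
theorem all_GENX : S_GENX := Pool.Agent.Helper12.Nag.GENX.t
theorem all_ENTX : S_ENTX := Pool.Agent.Helper36.Nag.ENTX.t all_EVC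
theorem all_BLKX : S_BLKX := Pool.Agent.Helper90.Nag.BLKX.t all_DETR all_ENTX
theorem all_CRV3 : S_CRV3 := Pool.Agent.Helper1.Nag.CRV3.t all_CUB
theorem all_HOR : S_HOR := Pool.Agent.Helper65.Nag.HOR.t all_SPN
theorem all_HOD : S_HOD := Pool.Agent.Helper40.Nag.HOD.t all_HOR
theorem all_TRN : S_TRN := Pool.Agent.Helper35.Nag.TRN.t
theorem all_TRP : S_TRP := Pool.Agent.Helper35.Nag.TRP.t
theorem all_TRS : S_TRS := Pool.Agent.Helper72.Nag.TRS.t
theorem all_TRR : S_TRR := Pool.Agent.Helper80.Nag.TRR.t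
theorem all_TRQ : S_TRQ := Pool.Agent.Helper35.Nag.TRQ.t
theorem all_NUMV : S_NUMV := Pool.Agent.Helper28.Nag.NUMV.t
theorem all_CBT : S_CBT := Pool.Agent.Helper98.Nag.CBT.t all_NUMV

/-- all the goals hold -/
theorem nGoals : NGoals where
  crv := all_CRV3
  cuv := all_CUVK
  lhy := all_LHY1
  mik := all_MIKV
  dim := all_DIMV
  gen := all_GENX
  blk := all_BLKX
  hor := all_HOR
  hod := all_HOD
  trn := all_TRN
  trp := all_TRP
  trs := all_TRS
  trr := all_TRR
  trq := all_TRQ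
  cbt := all_CBT
  trk := all_TRK

end Pool.Agent.Helper97.Nag
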