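import Pool.Agent.Helper97.Nag.Main1

/-!
The final statements of the project NAGATA from the goals.
-/

set_option autoImplicit false

noncomputable section

namespace Pool.Agent.Helper97.Nag

open Module Pool.Agent.Helper97

/-- arithmetic: in Nagata's range the expected dimension is zero -/
theorem arith1 (n d : ℕ) (m : Fin n → ℕ) (hn : 10 ≤ n)
    (h : n * d ^ 2 ≤ (∑ i, m i) ^ 2) (hpos : 1 ≤ ∑ i, m i) :
    (d + 2).choose 2 ≤ ∑ i, (m i + 1).choose 2 := by
  set Sm : ℕ := ∑ i, m i with hS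
  have h1 : Sm ^ 2 ≤ n * ∑ i, m i ^ 2 := by
    have h2 := sq_sum_le_card_mul_sum_sq (s := (Finset.univ : Finset (Fin n))) (f := m)
    rw [Finset.card_univ, Fintype.card_fin] at h2
    exact h2
  have h3 : d ^ 2 ≤ ∑ i, m i ^ 2 :=
    Nat.le_of_mul_le_mul_left (h.trans h1) (by omega)
  have h4 : 3 * d + 1 ≤ Sm := by
    by_contra hcon
    have h5 : Sm ≤ 3 * d := by omega
    have h6 : Sm ^ 2 ≤ (3 * d) ^ 2 := Nat.pow_le_pow_left h5 2
    have h7 : 10 * d ^ 2 ≤ n * d ^ 2 := Nat.mul_le_mul_right _ hn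
    have h8 : (3 * d) ^ 2 = 9 * d ^ 2 := by ring
    have h9 : d ^ 2 = 0 := by omega
    have h10 : d = 0 := by simpa using h9
    subst h10
    omega
  have h5 : 2 * ∑ i, (m i + 1).choose 2 = ∑ i, m i ^ 2 + Sm := by
    rw [hS, ← Finset.sum_add_distrib, Finset.mul_sum]
    apply Finset.sum_congr rfl
    intro i _
    rw [Nat.choose_two_right, Nat.add_sub_cancel]
    have : 2 ∣ (m i + 1) * m i := by
      rw [mul_comm]
      exact (Nat.even_mul_succ_self (m i)).two_dvd
    rw [Nat.mul_div_cancel' this]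
    ring
  have h6 : 2 * (d + 2).choose 2 = d ^ 2 + 3 * d + 2 := by
    rw [Nat.choose_two_right]
    have : 2 ∣ (d + 2) * (d + 2 - 1) := by
      have h7 : d + 2 - 1 = d + 1 := by omega
      rw [h7, mul_comm]
      exact (Nat.even_mul_succ_self (d + 1)).two_dvd
    rw [Nat.mul_div_cancel' this]
    have h7 : d + 2 - 1 = d + 1 := by omega
    rw [h7]
    ring
  have h7 : 2 ∣ d ^ 2 + 3 * d := by
    have : d ^ 2 + 3 * d = d * (d + 1) + 2 * d := by ring
    rw [this]
    exact dvd_add (Nat.even_mul_succ_self d).two_dvd (Dvd.intro _ rfl)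
  omega

/-- first result -/
theorem final1 (G : NGoals) (n : ℕ) (hn : 10 ≤ n) :
    (∀ (d : ℕ) (m : Fin n → ℕ), n * d ^ 2 ≤ (∑ i, m i) ^ 2 → 1 ≤ ∑ i, m i →
      ∃ G : MvPolynomial (Fin n × Fin 3) ℂ, G ≠ 0 ∧
        ∀ P : Fin n → Fin 3 → ℂ, (∀ i, P i ≠ 0) →
          MvPolynomial.eval (fun ij : Fin n × Fin 3 => P ij.1 ij.2) G ≠ 0 →
          ∀ D : ℤ, D = Module.finrank ℂ
            (↥(MvPolynomial.homogeneousSubmodule (Fin 3) ℂ d ⊓
              ⨅ i : Fin n, Submodule.restrictScalars ℂ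
                ((Ideal.span {g : MvPolynomial (Fin 3) ℂ |
                    g.IsHomogeneous 1 ∧ MvPolynomial.eval (P i) g = 0}) ^ (m i)
                  : Ideal (MvPolynomial (Fin 3) ℂ)))) →
            D = 0 ∧
            D = max ((Nat.choose (d + 2) 2 : ℤ) - ∑ i, (Nat.choose (m i + 1) 2 : ℤ)) 0) ∧
    ∃ 𝒢 : Set (MvPolynomial (Fin n × Fin 3) ℂ), 𝒢.Countable ∧ (0 ∉ 𝒢) ∧
      ∀ P : Fin n → Fin 3 → ℂ, (∀ i, P i ≠ 0) →
        (∀ G ∈ 𝒢, MvPolynomial.eval (fun ij : Fin n × Fin 3 => P ij.1 ij.2) G ≠ 0) →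
        ∀ (d : ℕ) (m : Fin n → ℕ) (f : MvPolynomial (Fin 3) ℂ), 1 ≤ d →
          f.IsHomogeneous d → f ≠ 0 →
          (∀ i, f ∈ (Ideal.span {g : MvPolynomial (Fin 3) ℂ |
            g.IsHomogeneous 1 ∧ MvPolynomial.eval (P i) g = 0}) ^ (m i)) →
          (∑ i, (m i : ℝ)) < Real.sqrt n * d := by
  constructor
  · intro d m h hpos
    obtain ⟨G', hG0, hG⟩ := nagataC G n d m hn h hpos
    refine ⟨G', hG0, fun P _ hP D hD => ?_⟩
    have h1 := hG P hP
    have h2 := arith1 n d m hn h hpos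
    have h3 : ((d + 2).choose 2 : ℤ) ≤ ∑ i, ((m i + 1).choose 2 : ℤ) := by exact_mod_cast h2
    have h4 : D = 0 := by rw [hD, h1]; rfl
    refine ⟨h4, ?_⟩
    rw [h4, max_eq_right]
    linarith
  · have hex : ∀ q : ℕ × (Fin n → ℕ), ∃ G' : MvPolynomial (Fin n × Fin 3) ℂ, G' ≠ 0 ∧
        (n * q.1 ^ 2 ≤ (∑ i, q.2 i) ^ 2 → 1 ≤ ∑ i, q.2 i → ∀ P : Fin n → Fin 3 → ℂ,
          MvPolynomial.eval (fun ij : Fin n × Fin 3 => P ij.1 ij.2) G' ≠ 0 →
          finrank ℂ (↥(MvPolynomial.homogeneousSubmodule (Fin 3) ℂ q.1 ⊓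
            ⨅ i : Fin n, Submodule.restrictScalars ℂ
              ((Ideal.span {g : MvPolynomial (Fin 3) ℂ |
                  g.IsHomogeneous 1 ∧ MvPolynomial.eval (P i) g = 0}) ^ (q.2 i)
                : Ideal (MvPolynomial (Fin 3) ℂ)))) = 0) := by
      intro q
      by_cases hq : n * q.1 ^ 2 ≤ (∑ i, q.2 i) ^ 2 ∧ 1 ≤ ∑ i, q.2 i
      · obtain ⟨G', hG0, hG⟩ := nagataC G n q.1 q.2 hn hq.1 hq.2
        exact ⟨G', hG0, fun _ _ => hG⟩
      · exact ⟨1, one_ne_zero, fun h1 h2 => absurd ⟨h1, h2⟩ hq⟩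
    choose gq hgq0 hgq using hex
    refine ⟨Set.range gq, Set.countable_range gq, ?_, ?_⟩
    · rintro ⟨q, hq⟩
      exact hgq0 q hq
    · intro P _ hP d m f hd hf hf0 hfm
      by_contra hcon
      rw [not_lt] at hcon
      have hcast : ((∑ i, m i : ℕ) : ℝ) = ∑ i, (m i : ℝ) := by push_cast; rfl
      rw [← hcast] at hcon
      have h1 : (n : ℝ) * d ^ 2 ≤ ((∑ i, m i : ℕ) : ℝ) ^ 2 := by
        have h2 : 0 ≤ Real.sqrt n * d := by positivity
        have h3 := pow_le_pow_left₀ h2 hcon 2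
        rwa [mul_pow, Real.sq_sqrt (by positivity)] at h3
      have h2 : n * d ^ 2 ≤ (∑ i, m i) ^ 2 := by exact_mod_cast h1
      have h3 : 1 ≤ ∑ i, m i := by
        by_contra hc
        have h4 : ∑ i, m i = 0 := by omega
        rw [h4] at h2
        have h5 : 0 < n * d ^ 2 := by positivity
        omega
      have h4 := hgq (d, m) h2 h3 P (hP _ ⟨(d, m), rfl⟩)
      set W : Submodule ℂ (MvPolynomial (Fin 3) ℂ) :=
        (MvPolynomial.homogeneousSubmodule (Fin 3) ℂ d ⊓
            ⨅ i : Fin n, Submodule.restrictScalars ℂ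
              ((Ideal.span {g : MvPolynomial (Fin 3) ℂ |
                  g.IsHomogeneous 1 ∧ MvPolynomial.eval (P i) g = 0}) ^ (m i)
                : Ideal (MvPolynomial (Fin 3) ℂ))) with hW
      have hfd : FiniteDimensional ℂ W :=
        Submodule.finiteDimensional_of_le
          (inf_le_left : W ≤ MvPolynomial.homogeneousSubmodule (Fin 3) ℂ d)
      have h5 : W = ⊥ := Submodule.finrank_eq_zero.1 h4
      have h6 : f ∈ W := by
        rw [hW, Submodule.mem_inf, Submodule.mem_iInf]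
        exact ⟨hf, hfm⟩
      rw [h5, Submodule.mem_bot] at h6
      exact hf0 h6

/-- second result -/
theorem final2 (G : NGoals) (n d : ℕ) (m : Fin n → ℕ) (hm : ∀ i, 3 * m i < d)
    (h : ∀ i, (m i + 1) * (∑ l, (m l + 1)) < (d + 3) ^ 2) :
    ∃ G : MvPolynomial (Fin n × Fin 3) ℂ, G ≠ 0 ∧
      ∀ P : Fin n → Fin 3 → ℂ, (∀ i, P i ≠ 0) →
        MvPolynomial.eval (fun ij : Fin n × Fin 3 => P ij.1 ij.2) G ≠ 0 →
        (Module.finrank ℂ
          (↥(MvPolynomial.homogeneousSubmodule (Fin 3) ℂ d ⊓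
            ⨅ i : Fin n, Submodule.restrictScalars ℂ
              ((Ideal.span {g : MvPolynomial (Fin 3) ℂ |
                  g.IsHomogeneous 1 ∧ MvPolynomial.eval (P i) g = 0}) ^ (m i)
                : Ideal (MvPolynomial (Fin 3) ℂ)))) : ℤ) =
          (Nat.choose (d + 2) 2 : ℤ) - ∑ i, (Nat.choose (m i + 1) 2 : ℤ) := by
  have hmm : ∀ i : Fin n, (fun l : ℕ => if hl : l < n then m ⟨l, hl⟩ else 0) (i : ℕ) = m i := by
    intro i
    simp
  rcases Nat.eq_zero_or_pos d with hd | hd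
  · -- there are no points
    have hn : n = 0 := by
      by_contra hn
      have := hm ⟨0, by omega⟩
      omega
    subst hn
    subst hd
    refine ⟨1, one_ne_zero, fun P _ _ => ?_⟩
    have h1 : (MvPolynomial.homogeneousSubmodule (Fin 3) ℂ 0 ⊓
            ⨅ i : Fin 0, Submodule.restrictScalars ℂ
              ((Ideal.span {g : MvPolynomial (Fin 3) ℂ |
                  g.IsHomogeneous 1 ∧ MvPolynomial.eval (P i) g = 0}) ^ (m i)
                : Ideal (MvPolynomial (Fin 3) ℂ))) = MvPolynomial.homogeneousSubmodule (Fin 3) ℂ 0 := by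
      rw [inf_eq_left]
      simp
    rw [h1]
    rw [MvPolynomial.homogeneousSubmodule_zero]
    have h2 := finrank_span_singleton (K := ℂ) (v := (1 : MvPolynomial (Fin 3) ℂ)) one_ne_zero
    rw [Submodule.one_eq_span, h2]
    simp
  · obtain ⟨G', hG0, hG⟩ := regC G n d m hd hm h
    refine ⟨G' * ∏ i : Fin n, MvPolynomial.X (i, 2), ?_, ?_⟩
    · apply mul_ne_zero hG0
      rw [Finset.prod_ne_zero_iff]
      intro i _
      exact MvPolynomial.X_ne_zero _
    · intro P _ hP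
      rw [map_mul, map_prod] at hP
      have hPA := left_ne_zero_of_mul hP
      have hP2 : ∀ i, P i 2 ≠ 0 := by
        intro i
        have h4 := (Finset.prod_ne_zero_iff.1 (right_ne_zero_of_mul hP)) i (Finset.mem_univ i)
        rwa [MvPolynomial.eval_X] at h4
      have hlow := Helper18.Shgh.lower_bound n
        (fun l : ℕ => if hl : l < n then m ⟨l, hl⟩ else 0) d P hP2
      have hup := hG P hPA
      have hFS : Helper18.Shgh.FS n (fun l : ℕ => if hl : l < n then m ⟨l, hl⟩ else 0) d P =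
          (MvPolynomial.homogeneousSubmodule (Fin 3) ℂ d ⊓
            ⨅ i : Fin n, Submodule.restrictScalars ℂ
              ((Ideal.span {g : MvPolynomial (Fin 3) ℂ |
                  g.IsHomogeneous 1 ∧ MvPolynomial.eval (P i) g = 0}) ^ (m i)
                : Ideal (MvPolynomial (Fin 3) ℂ))) := by
        unfold Helper18.Shgh.FS Helper18.Shgh.LI
        congr 1
        apply iInf_congr
        intro i
        rw [hmm i]
      rw [hFS] at hlow
      have hsum : ∑ i : Fin n, ((fun l : ℕ => if hl : l < n then m ⟨l, hl⟩ else 0) (i : ℕ) + 1).choose 2 =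
          ∑ i, (m i + 1).choose 2 := by
        apply Finset.sum_congr rfl
        intro i _
        rw [hmm i]
      rw [hsum] at hlow
      have h1 : ((d + 2).choose 2 : ℤ) = (finrank ℂ
          (↥(MvPolynomial.homogeneousSubmodule (Fin 3) ℂ d ⊓
            ⨅ i : Fin n, Submodule.restrictScalars ℂ
              ((Ideal.span {g : MvPolynomial (Fin 3) ℂ |
                  g.IsHomogeneous 1 ∧ MvPolynomial.eval (P i) g = 0}) ^ (m i)
                : Ideal (MvPolynomial (Fin 3) ℂ)))) : ℤ) + ∑ i, ((m i + 1).choose 2 : ℤ) := by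
        exact_mod_cast le_antisymm hlow hup
      linarith

end Pool.Agent.Helper97.Nag
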