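import Pool.Agent.Helper97.Tate.Defs

/-!
PROJECT NAG (Nagata's conjecture for `k ^ 2 + r` points, `r ∣ k ^ 2`). Definitions.
-/

set_option autoImplicit false

noncomputable section

namespace Pool.Agent.Helper97.Nag

open Pool.Agent.Helper97.Tate

section Curve

variable {F : Type} [Field F]

/-- the germ at `x` of the curve of degree `k`: three theta functions of degree `k` -/
def phk (k : ℕ) (x : Fˣ) (r : Fin 3) : PowerSeries (KK F) := evK x (Th k ((r : ℕ) : ℤ) 1)

/-- the point of parameter `x` -/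
def ptk (k : ℕ) (x : Fˣ) (r : Fin 3) : KK F := PowerSeries.constantCoeff (phk k x r)

/-- the equation at `q = 0` -/
def g0 (F : Type) [Field F] (k : ℕ) : MvPolynomial (Fin 3) F :=
  MvPolynomial.X 0 * MvPolynomial.X 1 ^ (k - 2) * MvPolynomial.X 2 - MvPolynomial.X 1 ^ k -
    MvPolynomial.X 2 ^ k

/-- the equation of the curve of degree `k` -/
def IsCrv (k : ℕ) (g : MvPolynomial (Fin 3) (OO F)) : Prop :=
  g.IsHomogeneous k ∧ MvPolynomial.map PowerSeries.constantCoeff g = g0 F k ∧
    MvPolynomial.eval₂ iO (fun r : Fin 3 => Th k ((r : ℕ) : ℤ) (1 : F)) g = 0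

/-- the equation over the field `F((q))` -/
def crvK (g : MvPolynomial (Fin 3) (OO F)) : MvPolynomial (Fin 3) (KK F) :=
  MvPolynomial.map (algebraMap (OO F) (KK F)) g

/-- the forms of degree `e` with multiplicity at least `n` at the points of parameters `w i` -/
def SysK (k : ℕ) {ι : Type} (w : ι → Fˣ) (e n : ℕ) : Submodule (KK F) (MvPolynomial (Fin 3) (KK F)) :=
  MvPolynomial.homogeneousSubmodule (Fin 3) (KK F) e ⊓ ⨅ i, Van (ptk k (w i)) n

/-- the degree of the sections of level `j` -/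
def kap (k d m j : ℕ) : ℕ := k * (d - k * max j m)

/-- the dimension of level `j` -/
def nu (k d m j : ℕ) : ℕ := if k * j = d then 1 else kap k d m j

/-- the sections of level `j` at the point `x` -/
def SER (k d m : ℕ) {ι : Type} [Fintype ι] (w : ι → Fˣ) (x : Fˣ) (j ρ : ℕ) : PowerSeries (KK F) :=
  (∏ i, evK x (th (w i))) ^ (j - m) *
    if k * j = d then 1 else evK x (Th (kap k d m j) (ρ : ℤ) (∏ i, (-((w i : Fˣ) : F)) ^ (m - j)))

end Curve

section Plane

variable {K : Type} [Field K]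

/-- the forms of degree `d - k * j` with multiplicity at least `m - j` at the points `P i` -/
def WK {ι : Type} (P : ι → Fin 3 → K) (m d k j : ℕ) : Submodule K (MvPolynomial (Fin 3) K) :=
  Fm K ((d : ℤ) - k * j) ⊓ ⨅ i, Van (P i) (m - j)

/-- the structure of all the levels -/
def LevHypK {ι : Type} (g : MvPolynomial (Fin 3) K) (P : ι → Fin 3 → K) (m d k : ℕ) (ν : ℕ → ℕ)
    {b : ℕ} (h : Fin b → Fin 3 → PowerSeries K) (Θ B : Fin b → PowerSeries K)
    (S : Fin b → ℕ → ℕ → PowerSeries K) : Prop :=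
  ∀ j, k * j ≤ d → ∃ a : WK P m d k j →ₗ[K] (Fin (ν j) → K),
    (∀ z, a z = 0 → g ∣ (z : MvPolynomial (Fin 3) K)) ∧
    ∀ (z : WK P m d k j) (i : Fin b),
      Θ i ^ j * MvPolynomial.aeval (h i) (z : MvPolynomial (Fin 3) K) =
        B i * ∑ r : Fin (ν j), PowerSeries.C (a z r) * S i j r

/-- the solutions of the conditions of `b` points of multiplicity `M` on the levels `0, ..., lam - 1`
of dimensions `ν j` -/
def KerK {b : ℕ} (M lam : ℕ) (ν : ℕ → ℕ) (Y : Fin b → K) (S : Fin b → ℕ → ℕ → PowerSeries K) :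
    Submodule K (∀ j : Fin lam, Fin (ν j) → K) where
  carrier := {a | ∀ (i : Fin b) (α β : ℕ), α + β < M →
    ∑ j : Fin lam, Y i ^ (j : ℕ) * ((j : ℕ).choose β : K) *
      ∑ r : Fin (ν j), a j r * PowerSeries.coeff α (S i j r) = 0}
  add_mem' := by
    intro a a' ha ha' i α β h
    have h1 := ha i α β h
    have h2 := ha' i α β h
    simp only [Pi.add_apply, add_mul, Finset.sum_add_distrib, mul_add]
    rw [h1, h2, add_zero]
  zero_mem' := by
    intro i α β h
    simp
  smul_mem' := by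
    intro c a ha i α β h
    have h1 := ha i α β h
    have h2 : ∑ j : Fin lam, Y i ^ (j : ℕ) * ((j : ℕ).choose β : K) *
        ∑ r : Fin (ν j), (c • a) j r * PowerSeries.coeff α (S i j r) =
        c * ∑ j : Fin lam, Y i ^ (j : ℕ) * ((j : ℕ).choose β : K) *
          ∑ r : Fin (ν j), a j r * PowerSeries.coeff α (S i j r) := by
      rw [Finset.mul_sum]
      apply Finset.sum_congr rfl
      intro j _
      have h3 : ∑ r : Fin (ν j), (c • a) j r * PowerSeries.coeff α (S i j r) =
          c * ∑ r : Fin (ν j), a j r * PowerSeries.coeff α (S i j r) := by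
        rw [Finset.mul_sum]
        apply Finset.sum_congr rfl
        intro r _
        simp only [Pi.smul_apply, smul_eq_mul, mul_assoc]
      rw [h3]
      ring
    rw [h2, h1, mul_zero]

end Plane

section Mono

variable {F : Type} [Field F]

/-- exponents of `T` and of the `w i` -/
abbrev HH (r p : ℕ) : Type := ℤ × (Fin r × Fin p → ℤ)

/-- exponents of the `w i`, the `x l` and the `y l` -/
abbrev GG (r p : ℕ) : Type := (Fin r × Fin p → ℤ) × (Fin r → ℤ) × (Fin r → ℤ)

/-- the Laurent monomial with exponents `g` -/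
def monK {r p : ℕ} (w : Fin r × Fin p → Fˣ) (x y : Fin r → Fˣ) (g : GG r p) : Fˣ :=
  (∏ i, w i ^ g.1 i) * (∏ l, x l ^ g.2.1 l) * ∏ l, y l ^ g.2.2 l

/-- `w i, x l, y l` are algebraically independent over `ℚ` -/
def GenK [CharZero F] {r p : ℕ} (w : Fin r × Fin p → Fˣ) (x y : Fin r → Fˣ) : Prop :=
  LinearIndependent ℚ fun g : GG r p => (monK w x y g : F)

/-- the generic theta function of degree one: the sum of the
`(-1) ^ a * q ^ (a * (a - 1) / 2) * T ^ a * w_i ^ (-a)` -/
def thG {r p : ℕ} (i : Fin r × Fin p) : PowerSeries (AddMonoidAlgebra ℚ (HH r p)) :=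
  PowerSeries.mk fun N => ∑ a ∈ Finset.Icc (-(N : ℤ)) (N + 1),
    if qe 1 0 a = N then AddMonoidAlgebra.single (a, -(Pi.single i a)) ((-1 : ℚ) ^ a) else 0

/-- the generic theta function of degree `κ` and multiplier `∏ (-w_i) ^ e` -/
def ThG (r p κ : ℕ) (ρ : ℤ) (e : ℕ) : PowerSeries (AddMonoidAlgebra ℚ (HH r p)) :=
  PowerSeries.mk fun N => ∑ a ∈ Finset.Icc (-(N : ℤ)) (N + 1),
    if qe κ ρ a = N then AddMonoidAlgebra.single (ρ + κ * a, fun _ => (e : ℤ) * a)
      ((-1 : ℚ) ^ ((r * p * e : ℕ) * a)) else 0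

/-- the generic section of level `j` -/
def FG (k r p d m j ρ : ℕ) : PowerSeries (AddMonoidAlgebra ℚ (HH r p)) :=
  (∏ i : Fin r × Fin p, thG i) ^ (j - m) *
    if k * j = d then 1 else ThG r p (kap k d m j) (ρ : ℤ) (m - j)

/-- the exponents of a monomial of the section `j` at the point `l` -/
def exG {r p : ℕ} (l : Fin r) (j : ℕ) (h : HH r p) : GG r p :=
  (h.2, Pi.single l h.1, Pi.single l (j : ℤ))

/-- the entries of the generic matrix: the monomial `c * T^n * w^g` goes to
`c * C(n, α) * C(j, β) * w^g * x_l^n * y_l^j` -/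
def ENT (k : ℕ) {r p : ℕ} (d m : ℕ) (l : Fin r) (α β j ρ : ℕ) :
    PowerSeries (AddMonoidAlgebra ℚ (GG r p)) :=
  PowerSeries.mk fun N => (PowerSeries.coeff N (FG k r p d m j ρ)).coeff.sum fun h c =>
    AddMonoidAlgebra.single (exG l j h) (c * ((Ring.choose h.1 α : ℤ) : ℚ) * (j.choose β : ℚ))

/-- the weight of `x l` -/
def wx (k r p : ℕ) (Om eta : ℝ) (l : ℕ) : ℝ := (Om + eta + p * (r - 1) / 2) / k ^ 2 - l / r

/-- the weight of `w i`, `i` in the group `l` -/
def ww (k r p : ℕ) (Om eta : ℝ) (l : ℕ) : ℝ := wx k r p Om eta l - eta / k ^ 2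

/-- the weight of a monomial of `HH` at the point `l` -/
def bH (k r p : ℕ) (Om eta : ℝ) (l : ℕ) : HH r p →+ ℝ where
  toFun h := h.1 * wx k r p Om eta l + ∑ i, h.2 i * ww k r p Om eta (i.1 : ℕ)
  map_zero' := by simp
  map_add' a b := by
    simp only [Prod.fst_add, Prod.snd_add, Pi.add_apply, Int.cast_add, add_mul,
      Finset.sum_add_distrib]
    ring

/-- the weight of a monomial of `GG` -/
def bG (k r p : ℕ) (Om eta : ℝ) : GG r p →+ ℝ where
  toFun g := ∑ i, g.1 i * ww k r p Om eta (i.1 : ℕ) + ∑ l, g.2.1 l * wx k r p Om eta (l : ℕ) +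
    ∑ l, g.2.2 l * (Om * (l : ℕ) / r)
  map_zero' := by simp
  map_add' a b := by
    simp only [Prod.fst_add, Prod.snd_add, Pi.add_apply, Int.cast_add, add_mul,
      Finset.sum_add_distrib]
    ring

end Mono

section Lattice

/-- the lower edge of the region -/
def Aj (k d m : ℕ) (Om eta : ℝ) (j : ℕ) : ℝ :=
  -((d : ℝ) / k - j) * Om - ((d : ℝ) / k - (max j m : ℕ)) * eta

/-- the column `(j, n)` belongs to the block `l` -/
def InB (k r d m : ℕ) (Om eta : ℝ) (l j : ℕ) (n : ℤ) : Prop :=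
  (k * j < d ∧ Aj k d m Om eta j + l * ((kap k d m j : ℝ) / r) ≤ n ∧
    (n : ℝ) < Aj k d m Om eta j + (l + 1) * ((kap k d m j : ℝ) / r)) ∨
  (k * j = d ∧ l = 0 ∧ n = 0)

/-- the lines `j - n = X` meeting `S` in at least `s` points -/
def lns (S : Finset (ℤ × ℤ)) (s : ℕ) : Finset ℤ :=
  (S.image fun q => q.1 - q.2).filter fun X => s ≤ (S.filter fun q => q.1 - q.2 = X).card

end Lattice

end Pool.Agent.Helper97.Nag
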