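import Pool.Agent.Helper97.Nag.Defs

/-!
PROJECT NAGATA (Nagata's conjecture for all `n ≥ 10` points, all multiplicities). Definitions.
-/

set_option autoImplicit false

noncomputable section

namespace Pool.Agent.Helper97.Nag

open Pool.Agent.Helper97.Tate

section Lattice

/-- the values `X` such that the row `n = X` contains at least `s` points `(j, n)` of `S` -/
def lnv (S : Finset (ℤ × ℤ)) (s : ℕ) : Finset ℤ :=
  (S.image Prod.snd).filter fun X => s ≤ (S.filter fun q => q.2 = X).card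

/-- independence of the points of a finite set of `ℤ × ℤ` for the conditions of multiplicity `M l`
at the `b` points `(x, y) = (l + 1, 1)` of the torus (the lattice point `(j, n)` is the monomial
`x^n y^j`) -/
def IndepV {b : ℕ} (M : Fin b → ℕ) (S : Finset (ℤ × ℤ)) : Prop :=
  ∀ a : ℤ × ℤ → ℚ,
    (∀ (l : Fin b) (α β : ℕ), α + β < M l →
      ∑ q ∈ S, a q * (((Ring.choose q.1 β : ℤ) : ℚ) * ((Ring.choose q.2 α : ℤ) : ℚ) *
        (((l : ℕ) : ℚ) + 1) ^ q.2) = 0) →
    ∀ q ∈ S, a q = 0

/-- the triangle: the window of level `j` is the open interval from `rho (d/3 - j)` to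
`(rho + 9) (d/3 - j)`; and the apex -/
def InT (d : ℕ) (rho : ℝ) (j : ℕ) (n : ℤ) : Prop :=
  (3 * j < d ∧ rho * ((d : ℝ) / 3 - j) < n ∧ (n : ℝ) < (rho + 9) * ((d : ℝ) / 3 - j)) ∨
    (3 * j = d ∧ n = 0)

/-- the dimension of level `j` -/
def nu1 (d j : ℕ) : ℕ := if 3 * j = d then 1 else 3 * (d - 3 * j)

end Lattice

section Curve

variable {F : Type} [Field F]

/-- the sections of level `j` at the point `x` -/
def SEX (d : ℕ) (x : Fˣ) (j ρ : ℕ) : PowerSeries (KK F) :=
  if 3 * j = d then 1 else evK x (Th (3 * (d - 3 * j)) (ρ : ℤ) 1)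

/-- the powers of `x` are linearly independent over `ℚ` -/
def GenX [CharZero F] (x : Fˣ) : Prop :=
  LinearIndependent ℚ fun n : ℤ => ((x ^ n : Fˣ) : F)

/-- the generic theta function of degree `κ` and multiplier one -/
def ThX (κ : ℕ) (ρ : ℤ) : PowerSeries (AddMonoidAlgebra ℚ ℤ) :=
  PowerSeries.mk fun N => ∑ a ∈ Finset.Icc (-(N : ℤ)) (N + 1),
    if qe κ ρ a = N then AddMonoidAlgebra.single (ρ + κ * a) 1 else 0

/-- the generic section of level `j` -/
def FX (d j ρ : ℕ) : PowerSeries (AddMonoidAlgebra ℚ ℤ) :=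
  if 3 * j = d then 1 else ThX (3 * (d - 3 * j)) (ρ : ℤ)

/-- the entries of the generic matrix at the point `(u * x, 1)`: the monomial `T^n` of the section
of level `j` goes to `C(n, α) * C(j, β) * u^n * x^n` -/
def ENTX (d : ℕ) (u : ℚ) (α β j ρ : ℕ) : PowerSeries (AddMonoidAlgebra ℚ ℤ) :=
  PowerSeries.mk fun N => (PowerSeries.coeff N (FX d j ρ)).coeff.sum fun n c =>
    AddMonoidAlgebra.single n (c * ((Ring.choose n α : ℤ) : ℚ) * (j.choose β : ℚ) * u ^ n)

end Curve

section Plane

variable {K : Type} [Field K]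

/-- the forms of degree `d - k * j` with multiplicity at least `μ i - j` at the points `P i` -/
def WKV {ι : Type} (P : ι → Fin 3 → K) (μ : ι → ℕ) (d k j : ℕ) :
    Submodule K (MvPolynomial (Fin 3) K) :=
  Fm K ((d : ℤ) - k * j) ⊓ ⨅ i, Van (P i) (μ i - j)

/-- the structure of all the levels -/
def LevHypV {ι : Type} (g : MvPolynomial (Fin 3) K) (P : ι → Fin 3 → K) (μ : ι → ℕ) (d k : ℕ)
    (ν : ℕ → ℕ) {b : ℕ} (h : Fin b → Fin 3 → PowerSeries K) (Θ B : Fin b → PowerSeries K)
    (S : Fin b → ℕ → ℕ → PowerSeries K) : Prop :=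
  ∀ j, k * j ≤ d → ∃ a : WKV P μ d k j →ₗ[K] (Fin (ν j) → K),
    (∀ z, a z = 0 → g ∣ (z : MvPolynomial (Fin 3) K)) ∧
    ∀ (z : WKV P μ d k j) (i : Fin b),
      Θ i ^ j * MvPolynomial.aeval (h i) (z : MvPolynomial (Fin 3) K) =
        B i * ∑ r : Fin (ν j), PowerSeries.C (a z r) * S i j r

/-- the solutions of the conditions of `b` points of multiplicities `M i` on the levels
`0, ..., lam - 1` of dimensions `ν j` -/
def KerV {b : ℕ} (M : Fin b → ℕ) (lam : ℕ) (ν : ℕ → ℕ) (Y : Fin b → K)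
    (S : Fin b → ℕ → ℕ → PowerSeries K) : Submodule K (∀ j : Fin lam, Fin (ν j) → K) where
  carrier := {a | ∀ (i : Fin b) (α β : ℕ), α + β < M i →
    ∑ j : Fin lam, Y i ^ (j : ℕ) * ((j : ℕ).choose β : K) *
      ∑ r : Fin (ν j), a j r * PowerSeries.coeff α (S i j r) = 0}
  add_mem' := by
    intro a a' ha ha' i α β h
    have h1 := ha i α β h
    have h2 := ha' i α β h
    simp only [Pi.add_apply, add_mul, Finset.sum_add_distrib, mul_add]
    rw [h1, h2, add_zero]
  zero_mem' := by
    intro i α β h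
    simp
  smul_mem' := by
    intro c a ha i α β h
    have h1 := ha i α β h
    have h2 : ∑ j : Fin lam, Y i ^ (j : ℕ) * ((j : ℕ).choose β : K) *
        ∑ r : Fin (ν j), (c • a) j r * PowerSeries.coeff α (S i j r) =
        c * ∑ j : Fin lam, Y i ^ (j : ℕ) * ((j : ℕ).choose β : K) *
          ∑ r : Fin (ν j), a j r * PowerSeries.coeff α (S i j r) := by
      rw [Finset.mul_sum]
      apply Finset.sum_congr rfl
      intro j _
      have h3 : ∑ r : Fin (ν j), (c • a) j r * PowerSeries.coeff α (S i j r) =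
          c * ∑ r : Fin (ν j), a j r * PowerSeries.coeff α (S i j r) := by
        rw [Finset.mul_sum]
        apply Finset.sum_congr rfl
        intro r _
        simp only [Pi.smul_apply, smul_eq_mul, mul_assoc]
      rw [h3]
      ring
    rw [h2, h1, mul_zero]

end Plane

end Pool.Agent.Helper97.Nag
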