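import Pool.Agent.Helper97.Nag.Goals1

/-!
PROJECT NAGATA, the closed case `n d² = (∑ m)²`, `n = k²`, `k ≥ 4`.
-/

set_option autoImplicit false

noncomputable section

namespace Pool.Agent.Helper97.Nag

/-- TRS (1 h). The count, closed case.
PROOF. `d ≥ 1`. Take `rho = 3k - 9 - ε`, `ε > 0` irrational, `ε < 1`, `ε k d < 1`; `c = rho + 9 = 3k - ε`,
`t = d/3`, `v = t - j`. No ties: `rho (d/3 - j)` is irrational. As in S_TRN: let the row `n = X` have at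
least `s` points, `σ = s - 1`. If `s ≥ 2`: `X > 0` (a point with `v > 0`), `v_max ≥ v_min + σ`, `σ < d`,
`X < c (t - σ)` and `9 X > σ rho c`. As `rho c/9 = k (k-3) - ε (6k - 9)/9 + ε²/9 ≥ k (k-3) - ε k` we get
`X > σ k (k-3) - σ ε k > σ k (k-3) - 1`, so `X ≥ σ k (k-3)`; and `X < (3k - ε)(t - σ) < k (d - 3σ)` (as
`t > σ`), so `X ≤ k (d - 3σ) - 1`. The number of such `X` is at most
`k (d - 3σ) - σ k (k-3) = k d - σ k² = ∑ M l - b σ ≤ ∑ (M l - σ)^+` (if this is negative there is no such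
`X`). If `s = 1`: `0 ≤ X < c t < k d`: at most `k d = ∑ M l` values. -/
def S_TRS : Prop := ∀ (b k d : ℕ) (M : Fin b → ℕ), 4 ≤ k → b = k ^ 2 → k * d = ∑ l, M l →
  1 ≤ ∑ l, M l → ∃ rho : ℝ, 0 ≤ rho ∧
    (∀ j : ℕ, 3 * j < d → ∀ n : ℤ, rho * ((d : ℝ) / 3 - j) ≠ n) ∧
    ∀ S : Finset (ℤ × ℤ), (∀ q ∈ S, ∃ j : ℕ, q.1 = j ∧ InT d rho j q.2) →
      ∀ s : ℕ, 1 ≤ s → (lnv S s).card ≤ ∑ l, (M l + 1 - s)

end Pool.Agent.Helper97.Nag
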