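import Pool.Agent.Helper97.Nag.Goals
import Pool.Agent.Helper97.Tate.Klev

/-!
The main inequality of the project NAG over the field `F((q))`, from the goals.
-/

set_option autoImplicit false

noncomputable section

namespace Pool.Agent.Helper97.Nag

open Module Pool.Agent.Helper97

open Pool.Agent.Helper97.Tate (OO KK SS cf IsTh qe Th iO ser evx evK th Van Fm tst nP Idx Indep IsCub)

/-- the goals used by the main inequality -/
structure MGoals : Prop where
  cuvk : S_CUVK
  lhyk : S_LHYK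
  mik : S_MIK
  dimk : S_DIMK
  genk : S_GENK
  blkk : S_BLKK
  thz : Tate.S_THZ
  vab : Tate.S_VAB

section Window

variable {k r d m : ℕ} {Om eta : ℝ}

theorem kap_pos {j : ℕ} (hk : 1 ≤ k) (hd : k * m < d) (hj : k * j < d) : 0 < kap k d m j := by
  unfold kap
  have h1 : k * max j m < d := by
    rcases le_total j m with h | h
    · rw [max_eq_right h]; exact hd
    · rw [max_eq_left h]; exact hj
  have h2 : 0 < d - k * max j m := by omega
  exact Nat.mul_pos hk h2

theorem kap_end {j : ℕ} (hj : k * j = d) : kap k d m j = 0 := by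
  unfold kap
  have h1 : d - k * max j m = 0 := by
    have : k * j ≤ k * max j m := Nat.mul_le_mul_left k (le_max_left _ _)
    omega
  rw [h1, mul_zero]

/-- the window of a level -/
theorem inB_window {l j : ℕ} {n : ℤ} (hr : 1 ≤ r) (hl : l < r) (hj : k * j < d)
    (h : InB k r d m Om eta l j n) :
    Aj k d m Om eta j ≤ n ∧ (n : ℝ) < Aj k d m Om eta j + kap k d m j := by
  rcases h with ⟨-, h2, h3⟩ | ⟨h2, -⟩
  · have hr' : (0 : ℝ) < r := by exact_mod_cast hr
    have hk0 : (0 : ℝ) ≤ (kap k d m j : ℝ) / r := by positivity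
    have h4 : ((l : ℝ) + 1) * ((kap k d m j : ℝ) / r) ≤ r * ((kap k d m j : ℝ) / r) := by
      apply mul_le_mul_of_nonneg_right _ hk0
      exact_mod_cast hl
    have h5 : (r : ℝ) * ((kap k d m j : ℝ) / r) = kap k d m j := by
      field_simp
    have h6 : (0 : ℝ) ≤ l * ((kap k d m j : ℝ) / r) := by positivity
    constructor
    · linarith
    · linarith
  · omega

/-- the block of a column is unique -/
theorem inB_unique {l l' j : ℕ} {n : ℤ} (hk : 1 ≤ k) (hr : 1 ≤ r) (hd : k * m < d)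
    (h : InB k r d m Om eta l j n) (h' : InB k r d m Om eta l' j n) : l = l' := by
  rcases h with ⟨h1, h2, h3⟩ | ⟨h1, h2, h3⟩
  · rcases h' with ⟨-, h2', h3'⟩ | ⟨h1', -⟩
    · have hr' : (0 : ℝ) < r := by exact_mod_cast hr
      have hkp : (0 : ℝ) < kap k d m j := by exact_mod_cast kap_pos hk hd h1
      have hk0 : (0 : ℝ) < (kap k d m j : ℝ) / r := by positivity
      have e1 : (l : ℝ) < l' + 1 := by
        have : (l : ℝ) * ((kap k d m j : ℝ) / r) < (l' + 1) * ((kap k d m j : ℝ) / r) := by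
          linarith
        exact lt_of_mul_lt_mul_right this hk0.le
      have e2 : (l' : ℝ) < l + 1 := by
        have : (l' : ℝ) * ((kap k d m j : ℝ) / r) < (l + 1) * ((kap k d m j : ℝ) / r) := by
          linarith
        exact lt_of_mul_lt_mul_right this hk0.le
      have e3 : l < l' + 1 := by exact_mod_cast e1
      have e4 : l' < l + 1 := by exact_mod_cast e2
      omega
    · omega
  · rcases h' with ⟨h1', -⟩ | ⟨-, h2', -⟩
    · omega
    · omega

/-- the residue of the exponent determines the column -/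
theorem col_inj {j : ℕ} {n n' : ℤ} {l l' : ℕ} (hr : 1 ≤ r) (hl : l < r) (hl' : l' < r)
    (h : InB k r d m Om eta l j n) (h' : InB k r d m Om eta l' j n')
    (he : (n % (kap k d m j : ℤ)).toNat = (n' % (kap k d m j : ℤ)).toNat) (hk : 1 ≤ k)
    (hd : k * m < d) : n = n' := by
  rcases lt_or_ge (k * j) d with hj | hj
  · obtain ⟨a1, a2⟩ := inB_window hr hl hj h
    obtain ⟨b1, b2⟩ := inB_window hr hl' hj h'
    have hkp := kap_pos hk hd hj
    set κ := kap k d m j
    have hkz : (0 : ℤ) < κ := by exact_mod_cast hkp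
    have e1 : n % (κ : ℤ) = n' % (κ : ℤ) := by
      have p1 := Int.emod_nonneg n hkz.ne'
      have p2 := Int.emod_nonneg n' hkz.ne'
      omega
    have e2 : ((n - n' : ℤ) : ℝ) < κ := by push_cast; linarith
    have e3 : ((n' - n : ℤ) : ℝ) < κ := by push_cast; linarith
    have e4 : n - n' < κ := by exact_mod_cast e2
    have e5 : n' - n < κ := by exact_mod_cast e3
    have e6 : (κ : ℤ) ∣ n - n' := Int.ModEq.dvd (show n' ≡ n [ZMOD κ] from e1.symm)
    obtain ⟨c, hc⟩ := e6
    have e7 : c < 1 := by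
      by_contra hcon
      have : (κ : ℤ) * 1 ≤ κ * c := mul_le_mul_of_nonneg_left (by omega) hkz.le
      omega
    have e8 : -1 < c := by
      by_contra hcon
      have : (κ : ℤ) * c ≤ κ * (-1) := mul_le_mul_of_nonneg_left (by omega) hkz.le
      omega
    have e9 : c = 0 := by omega
    rw [e9, mul_zero] at hc
    omega
  · have h0 : ∀ {l : ℕ} {n : ℤ}, InB k r d m Om eta l j n → n = 0 := by
      intro l n hh
      rcases hh with ⟨h1, -⟩ | ⟨-, -, h3⟩
      · omega
      · exact h3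
    rw [h0 h, h0 h']

end Window

section Curve

variable {F : Type} [Field F] [CharZero F]

theorem nineK (hCUV : S_CUVK) (hVAB : Tate.S_VAB) {k : ℕ} {g : MvPolynomial (Fin 3) (OO F)}
    (hk : 3 ≤ k) (hg : IsCrv k g) (w : Fˣ) :
    crvK g ∈ Van (ptk k w) 1 ∧ crvK g ∉ Van (ptk k w) 2 := by
  obtain ⟨h1, h2⟩ := hCUV F k g hk hg w
  obtain ⟨-, h3, h4, -⟩ := hVAB (KK F) (ptk k w)
  have e : ptk k w = fun r => PowerSeries.constantCoeff (phk k w r) := rfl
  constructor
  · rw [h3, e, ← Tate.constantCoeff_aeval, h1, map_zero]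
  · apply h4 _ 0
    rw [e, ← Tate.constantCoeff_aeval]
    exact h2

theorem prod_unitK (hTHZ : Tate.S_THZ) {ι : Type} [Fintype ι] (w : ι → Fˣ) (x : Fˣ)
    (hx : ∀ i, x ≠ w i) : PowerSeries.constantCoeff (∏ i, evK x (th (w i))) ≠ 0 := by
  rw [map_prod, Finset.prod_ne_zero_iff]
  intro i _
  exact (hTHZ F (w i) x).2.2.1 (hx i)

end Curve

/-- THE MAIN INEQUALITY -/
theorem maink (G : MGoals) (k r p d m M : ℕ) (Om eta : ℝ) (hk : 3 ≤ k) (hr : 1 ≤ r)
    (hp : 1 ≤ p) (hrp : r * p = k ^ 2) (hd : k * m < d)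
    (hcrv : ∀ (F : Type) [Field F] [CharZero F], ∃ g : MvPolynomial (Fin 3) (OO F), IsCrv k g)
    (heta : 0 < eta) (hetap : eta < p) (hgen : ∀ j : ℕ, k * j < d → ∀ (l : ℕ) (n : ℤ), l < r →
      Aj k d m Om eta j + l * ((kap k d m j : ℝ) / r) ≠ n)
    (C : Finset (ℕ × ℤ)) (hC : ∀ c ∈ C, ∃ l < r, InB k r d m Om eta l c.1 c.2)
    (hI : ∀ l < r, ∀ S : Finset (ℤ × ℤ), (∀ q ∈ S, ∃ c ∈ C, InB k r d m Om eta l c.1 c.2 ∧
      q = ((c.1 : ℤ), c.2 + ((c.1 - m : ℕ) : ℤ) * p * l)) → Indep M S) :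
    ∃ (K : Type) (_ : Field K) (_ : CharZero K) (P : Fin r × Fin p → Fin 3 → K)
      (P' : Fin r → Fin 3 → K),
      finrank K (Fm K d ⊓ (⨅ i, Van (P i) m) ⊓ ⨅ l, Van (P' l) M :
        Submodule K (MvPolynomial (Fin 3) K)) + C.card ≤
        ∑ j ∈ Finset.range (d / k + 1), nu k d m j := by
  have hk1 : 1 ≤ k := by omega
  obtain ⟨F, _, _, w, x, y, hGen, hwinj, hxw⟩ := G.genk r p
  obtain ⟨g, hg⟩ := hcrv F
  have : CharZero (KK F) := Tate.charZero_KK F
  have : Infinite (KK F) := Infinite.of_injective _ (Nat.cast_injective (R := KK F))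
  have : Nonempty (Fin r × Fin p) := ⟨(⟨0, hr⟩, ⟨0, hp⟩)⟩
  have hcard : Fintype.card (Fin r × Fin p) = k ^ 2 := by
    rw [Fintype.card_prod, Fintype.card_fin, Fintype.card_fin, hrp]
  have hLH := G.lhyk F k g hk hg (Fin r × Fin p) w hwinj hcard d m hd r x
  have hu : ∀ l, PowerSeries.constantCoeff (MvPolynomial.aeval (phk k (x l))
      (MvPolynomial.pderiv 0 (crvK g))) ≠ 0 := fun l => (G.cuvk F k g hk hg (x l)).2
  have hΘ : ∀ l, PowerSeries.constantCoeff (∏ i, evK (x l) (th (w i))) ≠ 0 := fun l =>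
    prod_unitK G.thz w (x l) (fun i => hxw l i)
  obtain ⟨P', hP'⟩ := G.mik (KK F) (Fin r × Fin p) (crvK g) (fun i => ptk k (w i)) m d k r M
    (nu k d m) (fun l => phk k (x l))
    (fun l => (MvPolynomial.aeval (phk k (x l)) (MvPolynomial.pderiv 0 (crvK g)))⁻¹ *
      (PowerSeries.C (algebraMap (OO F) (KK F) (PowerSeries.C ((y l : Fˣ) : F))) *
        ∏ i, evK (x l) (th (w i))))
    (fun l => ∏ i, evK (x l) (th (w i))) (fun l => (∏ i, evK (x l) (th (w i))) ^ m)
    (fun l => algebraMap (OO F) (KK F) (PowerSeries.C ((y l : Fˣ) : F)))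
    (fun l j ρ => SER k d m w (x l) j ρ) hk1 (hg.1.map _)
    (fun i => nineK G.cuvk G.vab hk hg (w i)) (fun l => (G.cuvk F k g hk hg (x l)).1)
    (by
      intro l
      rw [← mul_assoc, PowerSeries.mul_inv_cancel _ (hu l), one_mul])
    (by
      intro l
      simp only [map_pow]
      exact pow_ne_zero _ (hΘ l))
    hLH
  refine ⟨KK F, inferInstance, inferInstance, fun i => ptk k (w i), P', ?_⟩
  -- the columns
  set φ : ℕ × ℤ → ℕ × ℕ := fun c => (c.1, (c.2 % (kap k d m c.1 : ℤ)).toNat) with hφ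
  have hinj : Set.InjOn φ (C : Set (ℕ × ℤ)) := by
    rintro ⟨j, n⟩ hc ⟨j', n'⟩ hc' h
    simp only [hφ, Prod.mk.injEq] at h
    obtain ⟨rfl, h2⟩ := h
    obtain ⟨l, hl, hB⟩ := hC _ hc
    obtain ⟨l', hl', hB'⟩ := hC _ hc'
    have h3 : n = n' := col_inj hr hl hl' hB hB' h2 hk1 hd
    rw [h3]
  have hcardC : (C.image φ).card = C.card := Finset.card_image_of_injOn hinj
  have hjd : ∀ {l j : ℕ} {n : ℤ}, InB k r d m Om eta l j n → k * j ≤ d := by
    intro l j n h
    rcases h with ⟨h1, -⟩ | ⟨h1, -⟩ <;> omega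
  have hdim := G.dimk (KK F) r M (d / k + 1) (nu k d m)
    (fun l => algebraMap (OO F) (KK F) (PowerSeries.C ((y l : Fˣ) : F)))
    (fun l j ρ => SER k d m w (x l) j ρ) (C.image φ)
    (by
      intro c hc
      obtain ⟨⟨j, n⟩, hc1, rfl⟩ := Finset.mem_image.1 hc
      obtain ⟨l, hl, hB⟩ := hC _ hc1
      have hj := hjd hB
      simp only [hφ]
      constructor
      · have : j ≤ d / k := (Nat.le_div_iff_mul_le hk1).2 (by rw [mul_comm]; exact hj)
        omega
      · rcases hB with ⟨h1, -⟩ | ⟨h1, -, h3⟩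
        · have hkp := kap_pos hk1 hd h1
          have hne : k * j ≠ d := by
            simp only at h1
            omega
          rw [nu, if_neg hne]
          have hkz : (0 : ℤ) < kap k d m j := by exact_mod_cast hkp
          have p1 := Int.emod_nonneg n hkz.ne'
          have p2 := Int.emod_lt_of_pos n hkz
          omega
        · simp only at h1 h3
          rw [nu, if_pos h1, h3]
          simp)
    (by
      intro a ha
      have hB := G.blkk F k r p d m M Om eta w x y hGen hr hp hrp hk1 hd heta hetap hgen C hC hI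
        (fun c => a (φ c)) (by
          intro l α β hαβ
          have h1 := ha l α β hαβ
          rw [Finset.sum_image hinj] at h1
          exact h1)
      intro c hc
      obtain ⟨c', hc', rfl⟩ := Finset.mem_image.1 hc
      exact hB c' hc')
  rw [hcardC] at hdim
  exact (Nat.add_le_add_right hP' _).trans hdim

end Pool.Agent.Helper97.Nag
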