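import Pool.Agent.Helper97.Nag.Defs

/-!
NAGATA'S CONJECTURE FOR k^2 + r GENERAL POINTS, r | k^2  (project NAG, helper97, MP_d3128a_ag)

THEOREM R1. Let k >= 3, r >= 1, r | k^2, n = k^2 + r. For all d and all m_1, ..., m_n >= 0, not all zero,
if a nonzero ternary form of degree d over C vanishes to order m_i at n general points p_i, then
(m_1 + ... + m_n)^2 < n d^2. (n is never a square. So n = 10, 12, 18 | 17, 20, 24, 32 | 26, 30, 50 | 37, ...)
THEOREM R2. For n = 10 and n = 12 (k = 3, r = 1, 3), V = C(d+2,2), T = n C(m+1,2): the forms of degree d
with multiplicity >= m at n general points have dimension exactly max(V - T, 0) if d^2 < n m^2, and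
exactly V - T if 3 d^2 >= 3 n m^2 + 3 r m + r d.

0. REDUCTIONS. By semicontinuity it is enough to find one configuration over one field of
characteristic zero (the rank of a matrix over Q[coordinates], goal Tate.S_TRK). Equal multiplicities are
enough (product over the n cyclic shifts, S_SYM). Nonempty for (d, m) gives nonempty for (d', tm) for every
d' >= td (S_SCL), so for R1 we may assume k m < d, d^2 < n m^2 and r | k (d - k m).
Notation: p = k^2/r, t = d/k, u0 = t - m > 0.

1. THE CURVE. F = a field of characteristic zero with algebraically independent elements w_i (i in I, |I| =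
k^2, divided into r groups of p), x_l, y_l (0 <= l < r); K = F((q)). A theta function of degree κ and multiplier c
is f = sum_n a_n T^n with f(qT) = c^{-1} T^{-κ} f(T); a K-basis is, one for each residue ρ mod κ,
Th_{κ,ρ,c} = sum_a c^a q^{κ a(a-1)/2 + ρ a} T^{ρ + κ a}. Degree 1: th_w(T), simple zeros exactly at w q^Z.
The curve C = (Th_{k,0,1} : Th_{k,1,1} : Th_{k,2,1}) is a plane curve of degree k with an equation g over F[[q]]
whose reduction is X0 X1^{k-2} X2 - X1^k - X2^k (the equation of (1+T^k : T : T^2)): multiplication by
X1 = Th_{k,1,1} on the theta functions of degree k and multiplier c (c != 0, 1) is given by a k x k matrix of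
linear forms in X0, X2, because at q = 0 the 2k products X0 Θ_ρ, X2 Θ_ρ span all of degree 2k (S_GTW, S_CRV);
g = the characteristic polynomial. A form of degree e vanishing on C is divisible by g (S_KRNK; independence at
q = 0 of the monomials with exponent of X1 less than k, S_INDK).

2. THE SPECIALISATION. Put k^2 points of multiplicity m at C(w_i). Forms f = g^j f_j (f_j of degree d - kj and
multiplicity m - j at C(w_i)): the restriction of f_j to C is a theta function of degree k(d-kj) and
multiplier 1, with zeros of order (m-j)^+ at w_i. So it is (prod_i th_{w_i})^{(m-j)^+} times a theta function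
φ of degree κ_j = k (d - kj) - k^2 (m-j)^+ = k (d - k max(j,m)) and multiplier c_j = prod_i (-w_i)^{(m-j)^+}
(S_DVK, S_LEVK) (if kj = d, a constant). The point: C^2 = k^2 and C passes through k^2 points, the
degree κ_j is constant for j <= m. Let the r further points be infinitely near to C at x_l:
P'_l = C(x_l) + ε v_l. For f in the system the leading terms in ε along the filtration by powers of g
give (S_GRKD, S_MIK; v_l is normalised by y_l)
(1) dim{f : mult m at C(w_i) and at P'_l} <= dim KerK, KerK = the space of (φ_j)_{0 <= j <= t} such that
   Φ(T, Y) = sum_j Y^j (prod_i th_{w_i}(T))^{(j-m)^+} φ_j(T) vanishes to order m at (T, Y) = (x_l, y_l), all l < r.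
[Local computation: with Θ = prod th_{w_i}(x_l(1+s)), f(C(x_l(1+s)) + ε ...) has, for f = g^j f_j, leading term
ε^j (y_l (1+τ))^j Θ^j f_j|_C = ε^j (y_l(1+τ))^j Θ^{m + (j-m)^+} φ_j, and Θ^m is a unit common to all j.]
So dim <= (sum_j ν_j) - rank, where ν_j = κ_j (or 1 if kj = d) is the dimension of level j. For k = 3,
sum ν_j = C(d+2,2) - 9 C(m+1,2) (S_NUMV). It remains to bound the rank of the conditions on KerK from below.

3. THE WEIGHTS. The entries of the matrix of KerK (rows: (l, α, β), α + β < m; columns: (j, ρ), ρ mod κ_j)
are power series in q over Q[w^±, x^±, y^±]: the monomial c q^N T^n w^g of the column gives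
c C(n,α) C(j,β) q^N w^g x_l^n y_l^j. Let 0 < ρ < 1 be a real number, Ω = 1 - ρ, 0 < η small, and give weights:
q: 1;  x_l: ξ - l/r;  w_i (i in the group l): ξ - l/r - η/k^2;  y_l: Ω l/r, where
k^2 ξ = Ω + η + p (r-1)/2 (so that the sum of the weights of all the w_i is Ω).
Column (j, ρ) at the point l: the monomials n = ρ + κ a of φ_j have (S_EXT) weight
(n - C_{j,l})^2/(2κ) - C_{j,l}^2/(2κ) + const, C_{j,l} = C_{j,0} + l κ/r, C_{j,0} = κ_j/2 - κ_j ξ - (m-j)^+ Ω;
each th_{w_i}(x_l) has a unique monomial of least weight, 1 if i is in a group l' >= l and -T/w_i if l' < l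
(S_EXH; here |weight(x_l/w_i)| < 1). So (prod th_{w_i})^{(j-m)^+} contributes T^{p l (j-m)^+}. Adding a constant
ta_l to the rows of the point l, the weight of the column (j, n) at the point l' is (S_WID, S_EXF)
(2)  (n - A_j - (l' + 1/2) κ_j/r)^2/(2κ_j) + const(j),  A_j = C_{j,0} - κ_j/(2r) = -(t-j) Ω - (t - max(j,m)) η.
The identity behind (2): the terms -C_{j,l} l/r + ..., j weight(y_l), (j-m)^+ weight(prod th) add up to zero for
every j <= m and every j >= m (this fixes the weight of y_l and k^2 ξ - Ω = η + p(r-1)/2). So in column j, one
monomial n for each class modulo κ_j, the smallest weight over all the l' and all n in the class is attained once: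
at the unique pair (l, n) with A_j + l κ_j/r < n < A_j + (l+1) κ_j/r. So the window of κ_j consecutive integers
n in (A_j, A_j + κ_j) is divided into r blocks of length κ_j/r, the block l going to the point l. For generic
η there are no ties (the numbers A_j + l κ_j/r are not integers). If kj = d the column has n = 0, l = 0.
CONSEQUENCE (S_DETR, S_BLKK): if C is a set of columns (j, n) such that for each l the lattice points
(j, n + p l (j-m)^+), (j, n) in C in the block l, are independent for polynomials of degree < m (that is the
vectors (C(j,β) C(n,α))_{α+β<m} are linearly independent; Indep m), then the columns C are linearly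
independent, rank >= |C|. [In the expansion of a maximal minor the terms of least weight are those of
the block diagonal matrix; its minor is a product of minors of binomial vectors times monomials.]

4. ONE BLOCK. If r | k (d - k m) then κ_j/r is an integer and (j, n) in the block l corresponds to n' = n - l κ_j/r
in the block 0, n + p l (j-m)^+ = n' + l κ_m/r: the lattice points of the block l are a translate (S_TRI) of
S = {(j, n) : 0 <= j < t, A_j <= n < A_j + κ_j/r} (for l = 0 with the point (t, 0) if k | d).
UNISOLVENCE (Tate.S_COL): if a set S is covered by lines j - n = X_0, X_1, ..., with at most m - i points of S on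
X_i (and no point for i >= m), S is independent: remove the lines one after the other, the longest first. In
counting form (S_COLC): |{lines with >= s points}| <= m + 1 - s for every s >= 1 with a line with s points.
With u = t - j, Z = t - (j - n), mn = min(u, u0), κ_j/r = p mn, the region S is
(3) ρ u - η mn <= Z < ρ u + (p - η) mn,  0 < u <= t.
For η = 0: the line Z contains the u in t + Z with max(Z/(ρ+p), (Z - p u0)/ρ) < u <= min(t, Z/ρ). A line with s
points, σ = s - 1, has σ < p u0/ρ and σ ρ(ρ+p)/p < Z < ρ (t - σ) + p u0. The number of such Z in t + Z is at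
most m - σ if f(σ) = ρ (t-σ) + p u0 - σ ρ (ρ+p)/p - (m - σ) <= 0 (or rather the least integer >= the length).
f is affine, f(0) = ρ t + p u0 - m, f(p u0/ρ) = -(1-ρ)(m - p u0/ρ). So all is well if
(4) p u0/m < ρ < (m - p u0)/t, and such a ρ exists iff p u0 t < m^2 - p u0 m iff p (t^2 - m^2) < m^2
    iff d^2 < (k^2 + r) m^2. [p k^2 (t^2 - m^2) = p (d^2 - k^2 m^2), p r = k^2.]
For small η > 0 the strict inequalities remain, and f(σ*) <= 0 for η u0 (p+ρ)/ρ <= (1-ρ)(m - p u0/ρ)
(S_LPE, S_LCE). So all the columns are independent, KerK = 0, and the system is empty: this is R1.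
REGULAR CASE: if p (t^2 - m^2) >= m^2 + m + t (this is k d^2 >= k n m^2 + k r m + r d) take ρ slightly larger
than (p u0 - 1)/m: then the line count is at least m + 1 - s for 1 <= s <= m (S_LPR, S_LCR), so S contains an
independent set with m(m+1)/2 points (S_COLS); all the blocks together: rank >= r m(m+1)/2, and
dim <= sum ν_j - r C(m+1,2) = V - T for k = 3, which is R2 (the lower bound V - T is trivial).

5. COMMENT. For d^2 = n m^2 (no integer solution) (4) becomes ρ = p u0/m = (m - p u0)/t and f = 0: the region (3)
(η = 0) is a quadrilateral of area m^2/2 whose lines Z carry m, m - 1, ..., 1 points asymptotically, so the last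
step loses nothing; this happens exactly for n = k^2 + r with r | k^2. For r = 1, k = 3 the construction is the
one of FewPoints (project TATE) with a tenth point. Numerical checks: the counts of S_LCE and S_LCR for 13 pairs (k, r), k <= 7, and
all m < 80 (no failure); ranks of the lattice point matrices against the true dimensions for small (d, m).
-/
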